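import Pool.Agent.H598.AA.Mom

/-!
# Moments of the numbers of solutions
-/

namespace Pool.Agent.H598.AA

open Finset Polynomial Pool.Agent.H598.FQ Pool.Agent.H598.AS
open scoped Classical

variable {F : Type*} [Field F]

/-- The leading coefficient of the values of the form. -/
noncomputable def vv (k : ℕ) {s : ℕ} (a : Fin s → F[X]) (W : ℕ) (c : Fin s → F) : F :=
  ∑ i, (if (a i).natDegree % k = W % k then (a i).leadingCoeff * c i ^ k else 0)

/-- The value of the form. -/
noncomputable def val (k : ℕ) {s : ℕ} (a : Fin s → F[X]) (W : ℕ) (c : Fin s → F)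
    (y : ∀ i, degreeLT F (dP k W (a i))) : F[X] :=
  ∑ i, a i * (C (c i) * X ^ (dP k W (a i)) + (y i : F[X])) ^ k

lemma val_mem (k : ℕ) {s : ℕ} {a : Fin s → F[X]} {W : ℕ} (hW : ∀ i, (a i).natDegree ≤ W)
    (c : Fin s → F) (y : ∀ i, degreeLT F (dP k W (a i))) :
    val k a W c y - C (vv k a W c) * X ^ W ∈ degreeLT F W := by
  have hx : ∀ i, (C (c i) * X ^ (dP k W (a i)) + (y i : F[X])).natDegree ≤ dP k W (a i) := by
    intro i
    apply natDegree_add_le_of_degree_le
    · exact natDegree_C_mul_X_pow_le _ _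
    · exact mem_V_succ_iff.1 (V_mono (Nat.le_succ _) (y i).2)
  have hc : ∀ i, (C (c i) * X ^ (dP k W (a i)) + (y i : F[X])).coeff (dP k W (a i)) = c i := by
    intro i
    rw [coeff_add, coeff_C_mul_X_pow, if_pos rfl, mem_V_iff.1 (y i).2 _ le_rfl, add_zero]
  apply mem_V_of_succ
  · apply Submodule.sub_mem
    · rw [mem_V_succ_iff]
      unfold val
      apply natDegree_sum_le_of_forall_le
      intro i _
      refine le_trans natDegree_mul_le ?_
      have h3 : ((C (c i) * X ^ (dP k W (a i)) + (y i : F[X])) ^ k).natDegree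
          ≤ k * dP k W (a i) := le_trans natDegree_pow_le (Nat.mul_le_mul_left _ (hx i))
      have := dP_le (k := k) (hW i)
      omega
    · rw [mem_V_succ_iff]
      exact natDegree_C_mul_X_pow_le _ _
  · rw [coeff_sub, coeff_C_mul_X_pow, if_pos rfl, sub_eq_zero]
    unfold val vv
    rw [finsetSum_coeff]
    apply Finset.sum_congr rfl
    intro i _
    rw [coeff_W (hW i) (hx i), hc]

section
variable [Fintype F]

lemma ZW_eq (k : ℕ) {s : ℕ} (a : Fin s → F[X]) (m : F[X]) (W : ℕ) (c : Fin s → F) :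
    ZW k a m W c = (Finset.univ.filter (fun y => val k a W c y = m)).card := rfl

/-- Sums weighted with the number of solutions. -/
lemma sum_ZW {k : ℕ} {s : ℕ} {a : Fin s → F[X]} {W : ℕ} (hW : ∀ i, (a i).natDegree ≤ W)
    (c : Fin s → F) (h : F[X] → ℝ) :
    ∑ m : degreeLT F W, (ZW k a (C (vv k a W c) * X ^ W + (m : F[X])) W c : ℝ)
      * h (C (vv k a W c) * X ^ W + (m : F[X])) = ∑ y, h (val k a W c y) := by
  rw [← Finset.sum_fiberwise Finset.univ (fun y : (∀ i, degreeLT F (dP k W (a i))) =>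
    (⟨val k a W c y - C (vv k a W c) * X ^ W, val_mem k hW c y⟩ : degreeLT F W))]
  apply Finset.sum_congr rfl
  intro m _
  have h0 : ∀ y : (∀ i, degreeLT F (dP k W (a i))),
      (⟨val k a W c y - C (vv k a W c) * X ^ W, val_mem k hW c y⟩ : degreeLT F W) = m
        ↔ val k a W c y = C (vv k a W c) * X ^ W + (m : F[X]) := by
    intro y
    rw [Subtype.ext_iff]
    constructor
    · intro h1
      rw [← h1]; ring
    · intro h1
      change val k a W c y - C (vv k a W c) * X ^ W = (m : F[X])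
      rw [h1]; ring
  have h1 : ∀ y ∈ Finset.univ.filter (fun y : (∀ i, degreeLT F (dP k W (a i))) =>
      (⟨val k a W c y - C (vv k a W c) * X ^ W, val_mem k hW c y⟩ : degreeLT F W) = m),
      h (val k a W c y) = h (C (vv k a W c) * X ^ W + (m : F[X])) := by
    intro y hy
    rw [(h0 y).1 (Finset.mem_filter.1 hy).2]
  rw [Finset.sum_congr rfl h1, Finset.sum_const, nsmul_eq_mul]
  congr 2
  rw [ZW_eq]
  congr 1
  apply Finset.filter_congr
  intro y _
  exact (h0 y).symm

/-- The first half of a tuple. -/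
noncomputable def h1 (k W : ℕ) {s : ℕ} (a : Fin s → F[X])
    (z : ∀ i : Fin (s + s), degreeLT F (dP k W (dbl a i))) (i : Fin s) :
    degreeLT F (dP k W (a i)) :=
  ⟨z (Fin.castAdd s i), by
      have e : dP k W (a i) = dP k W (dbl a (Fin.castAdd s i)) := by rw [dbl_left]
      rw [e]
      exact (z (Fin.castAdd s i)).2⟩

/-- The second half of a tuple. -/
noncomputable def h2 (k W : ℕ) {s : ℕ} (a : Fin s → F[X])
    (z : ∀ i : Fin (s + s), degreeLT F (dP k W (dbl a i))) (i : Fin s) :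
    degreeLT F (dP k W (a i)) :=
  ⟨z (Fin.natAdd s i), by
      have e : dP k W (a i) = dP k W (dbl a (Fin.natAdd s i)) := by rw [dbl_right, dP_neg]
      rw [e]
      exact (z (Fin.natAdd s i)).2⟩

omit [Fintype F] in
lemma h1_coe (k W : ℕ) {s : ℕ} (a : Fin s → F[X])
    (z : ∀ i : Fin (s + s), degreeLT F (dP k W (dbl a i))) (i : Fin s) :
    (h1 k W a z i : F[X]) = (z (Fin.castAdd s i) : F[X]) := by
  unfold h1
  exact Subtype.coe_mk _ _

omit [Fintype F] in
lemma h2_coe (k W : ℕ) {s : ℕ} (a : Fin s → F[X])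
    (z : ∀ i : Fin (s + s), degreeLT F (dP k W (dbl a i))) (i : Fin s) :
    (h2 k W a z i : F[X]) = (z (Fin.natAdd s i) : F[X]) := by
  unfold h2
  exact Subtype.coe_mk _ _

/-- Joining two tuples. -/
noncomputable def jn (k W : ℕ) {s : ℕ} (a : Fin s → F[X])
    (y y' : ∀ i, degreeLT F (dP k W (a i))) (i : Fin (s + s)) :
    degreeLT F (dP k W (dbl a i)) :=
  ⟨Fin.append (fun i => (y i : F[X])) (fun i => (y' i : F[X])) i, by
    refine Fin.addCases (fun i => ?_) (fun i => ?_) i
    · rw [dbl_left, Fin.append_left]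
      exact (y i).2
    · rw [dbl_right, dP_neg, Fin.append_right]
      exact (y' i).2⟩

omit [Fintype F] in
lemma jn_left (k W : ℕ) {s : ℕ} (a : Fin s → F[X])
    (y y' : ∀ i, degreeLT F (dP k W (a i))) (i : Fin s) :
    (jn k W a y y' (Fin.castAdd s i) : F[X]) = (y i : F[X]) := by
  unfold jn
  refine (Subtype.coe_mk _ _).trans ?_
  exact Fin.append_left (fun i => (y i : F[X])) (fun i => (y' i : F[X])) i

omit [Fintype F] in
lemma jn_right (k W : ℕ) {s : ℕ} (a : Fin s → F[X])
    (y y' : ∀ i, degreeLT F (dP k W (a i))) (i : Fin s) :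
    (jn k W a y y' (Fin.natAdd s i) : F[X]) = (y' i : F[X]) := by
  unfold jn
  refine (Subtype.coe_mk _ _).trans ?_
  exact Fin.append_right (fun i => (y i : F[X])) (fun i => (y' i : F[X])) i

/-- Pairs of tuples as tuples of double length. -/
noncomputable def dblE (k W : ℕ) {s : ℕ} (a : Fin s → F[X]) :
    (∀ i : Fin (s + s), degreeLT F (dP k W (dbl a i))) ≃
      (∀ i, degreeLT F (dP k W (a i))) × (∀ i, degreeLT F (dP k W (a i))) where
  toFun z := (h1 k W a z, h2 k W a z)
  invFun p := jn k W a p.1 p.2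
  left_inv z := by
    funext i
    apply Subtype.ext
    refine Fin.addCases (fun i => ?_) (fun i => ?_) i
    · exact (jn_left k W a _ _ i).trans (h1_coe k W a z i)
    · exact (jn_right k W a _ _ i).trans (h2_coe k W a z i)
  right_inv p := by
    apply Prod.ext
    · funext i
      apply Subtype.ext
      exact (h1_coe k W a _ i).trans (jn_left k W a _ _ i)
    · funext i
      apply Subtype.ext
      exact (h2_coe k W a _ i).trans (jn_right k W a _ _ i)

omit [Fintype F] in
lemma tm_left (k W : ℕ) {s : ℕ} (a : Fin s → F[X]) (c : Fin s → F) (i : Fin s) (w : F[X]) :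
    dbl a (Fin.castAdd s i) * (C (Fin.append c c (Fin.castAdd s i))
      * X ^ (dP k W (dbl a (Fin.castAdd s i))) + w) ^ k
      = a i * (C (c i) * X ^ (dP k W (a i)) + w) ^ k := by
  rw [dbl_left, Fin.append_left]

omit [Fintype F] in
lemma tm_right (k W : ℕ) {s : ℕ} (a : Fin s → F[X]) (c : Fin s → F) (i : Fin s) (w : F[X]) :
    dbl a (Fin.natAdd s i) * (C (Fin.append c c (Fin.natAdd s i))
      * X ^ (dP k W (dbl a (Fin.natAdd s i))) + w) ^ k
      = -(a i * (C (c i) * X ^ (dP k W (a i)) + w) ^ k) := by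
  rw [dbl_right, Fin.append_right, dP_neg, neg_mul]

omit [Fintype F] in
lemma val_dbl (k W : ℕ) {s : ℕ} (a : Fin s → F[X]) (c : Fin s → F)
    (z : ∀ i : Fin (s + s), degreeLT F (dP k W (dbl a i))) :
    val k (dbl a) W (Fin.append c c) z
      = val k a W c (h1 k W a z) - val k a W c (h2 k W a z) := by
  have e1 : val k (dbl a) W (Fin.append c c) z
      = ∑ i : Fin s, dbl a (Fin.castAdd s i) * (C (Fin.append c c (Fin.castAdd s i))
      * X ^ (dP k W (dbl a (Fin.castAdd s i))) + (h1 k W a z i : F[X])) ^ k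
        + ∑ i : Fin s, dbl a (Fin.natAdd s i) * (C (Fin.append c c (Fin.natAdd s i))
      * X ^ (dP k W (dbl a (Fin.natAdd s i))) + (h2 k W a z i : F[X])) ^ k := by
    unfold val
    rw [Fin.sum_univ_add]
    simp only [h1_coe, h2_coe]
  rw [e1, Finset.sum_congr rfl (fun i _ => tm_left k W a c i _),
    Finset.sum_congr rfl (fun i _ => tm_right k W a c i _), Finset.sum_neg_distrib,
    ← sub_eq_add_neg]
  rfl

/-- Doubling for the numbers of solutions. -/
lemma ZW_dbl (k W : ℕ) {s : ℕ} (a : Fin s → F[X]) (c : Fin s → F) :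
    ZW k (dbl a) 0 W (Fin.append c c) = ∑ y, ZW k a (val k a W c y) W c := by
  rw [ZW_eq, Finset.card_filter, ← (dblE k W a).symm.sum_comp, Fintype.sum_prod_type]
  apply Finset.sum_congr rfl
  intro y _
  rw [ZW_eq, Finset.card_filter]
  apply Finset.sum_congr rfl
  intro y' _
  have e : (val k (dbl a) W (Fin.append c c) ((dblE k W a).symm (y, y')) = 0)
      ↔ (val k a W c y' = val k a W c y) := by
    have e2 : dblE k W a ((dblE k W a).symm (y, y')) = (y, y') := Equiv.apply_symm_apply _ _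
    have e3 : h1 k W a ((dblE k W a).symm (y, y')) = y := congrArg Prod.fst e2
    have e4 : h2 k W a ((dblE k W a).symm (y, y')) = y' := congrArg Prod.snd e2
    rw [val_dbl, e3, e4, sub_eq_zero, eq_comm]
  simp only [e]

variable {k : ℕ} {s : ℕ} {a : Fin s → F[X]} {W : ℕ}

/-- The second moment of the numbers of solutions. -/
lemma ZW_sq (hW : ∀ i, (a i).natDegree ≤ W) (c : Fin s → F) :
    ∑ m : degreeLT F W, (ZW k a (C (vv k a W c) * X ^ W + (m : F[X])) W c : ℝ) ^ 2
      = (ZW k (dbl a) 0 W (Fin.append c c) : ℝ) := by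
  have h1 := sum_ZW (k := k) hW c (fun m => (ZW k a m W c : ℝ))
  rw [ZW_dbl]
  push_cast
  rw [← h1]
  apply Finset.sum_congr rfl
  intro m _
  ring

/-- The mixed moment. -/
lemma ZW_dn (hW : ∀ i, (a i).natDegree ≤ W) (c : Fin s → F) {G : F[X]} (hG : G.Monic)
    (hGP : ∀ i, G.natDegree ≤ dP k W (a i)) :
    ∑ m : degreeLT F W, (ZW k a (C (vv k a W c) * X ^ W + (m : F[X])) W c : ℝ)
      * dn k a (C (vv k a W c) * X ^ W + (m : F[X])) G
      = (∏ i, (Fintype.card F : ℝ) ^ dP k W (a i)) * dn k (dbl a) 0 G := by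
  rw [sum_ZW (k := k) hW c (fun m => dn k a m G), ← dn_cross a hG _ hGP]
  rfl

/-- The number of solutions, normalised. -/
noncomputable def rr (k : ℕ) {s : ℕ} (a : Fin s → F[X]) (m : F[X]) (W : ℕ) (c : Fin s → F) : ℝ :=
  (ZW k a m W c : ℝ) * (Fintype.card F : ℝ) ^ W / ∏ i, (Fintype.card F : ℝ) ^ (dP k W (a i))

lemma prod_dbl (k W : ℕ) {s : ℕ} (a : Fin s → F[X]) :
    ∏ i, (Fintype.card F : ℝ) ^ (dP k W (dbl a i))
      = (∏ i, (Fintype.card F : ℝ) ^ (dP k W (a i))) ^ 2 := by
  rw [Fin.prod_univ_add, sq]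
  congr 1
  · apply Finset.prod_congr rfl
    intro i _
    rw [dbl_left]
  · apply Finset.prod_congr rfl
    intro i _
    rw [dbl_right, dP_neg]

/-- **The variance.** -/
theorem variance_eq (hW : ∀ i, (a i).natDegree ≤ W) (c : Fin s → F) {G : F[X]} (hG : G.Monic)
    (hGP : ∀ i, G.natDegree ≤ dP k W (a i)) (hGW : G.natDegree ≤ W) :
    ∑ m : degreeLT F W, (rr k a (C (vv k a W c) * X ^ W + (m : F[X])) W c
        - dn k a (C (vv k a W c) * X ^ W + (m : F[X])) G) ^ 2
      = (Fintype.card F : ℝ) ^ W * (rr k (dbl a) 0 W (Fin.append c c) - dn k (dbl a) 0 G) := by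
  have hq0 : (0 : ℝ) < Fintype.card F := by exact_mod_cast Fintype.card_pos
  obtain ⟨R, hR⟩ : ∃ R : ℝ, R = ∏ i, (Fintype.card F : ℝ) ^ (dP k W (a i)) := ⟨_, rfl⟩
  have hR0 : 0 < R := by rw [hR]; positivity
  have h1 := ZW_sq (k := k) hW c
  have h2 := ZW_dn (k := k) hW c hG hGP
  have h3 := dn_sq (k := k) a hG (C (vv k a W c) * X ^ W) hGW
  have h4 : ∀ m : degreeLT F W, (rr k a (C (vv k a W c) * X ^ W + (m : F[X])) W c
        - dn k a (C (vv k a W c) * X ^ W + (m : F[X])) G) ^ 2
      = ((Fintype.card F : ℝ) ^ W / R) ^ 2 *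
          (ZW k a (C (vv k a W c) * X ^ W + (m : F[X])) W c : ℝ) ^ 2
        - 2 * ((Fintype.card F : ℝ) ^ W / R) *
          ((ZW k a (C (vv k a W c) * X ^ W + (m : F[X])) W c : ℝ)
            * dn k a (C (vv k a W c) * X ^ W + (m : F[X])) G)
        + dn k a (C (vv k a W c) * X ^ W + (m : F[X])) G ^ 2 := by
    intro m
    unfold rr
    rw [← hR]
    ring
  rw [Finset.sum_congr rfl (fun m _ => h4 m), Finset.sum_add_distrib, Finset.sum_sub_distrib,
    ← Finset.mul_sum, ← Finset.mul_sum, h1, h2, h3]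
  unfold rr
  rw [prod_dbl, ← hR]
  field_simp
  ring

end

end Pool.Agent.H598.AA
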