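import Pool.Agent.H598.AA.Mom
import Pool.Agent.H598.TK.Top
import Pool.Agent.H598.DG.Local

/-!
# A uniform lower bound for the local densities
-/

namespace Pool.Agent.H598.AA

open Finset Polynomial Pool.Agent.H598.FQ Pool.Agent.H598.AS
open Pool.Agent.H598.DG (GG GG_mul dvd_sub_mod mod_eq_of_dvd crt)
open Pool.Agent.H598.TK (wp wp_monic wp_natDegree wp_inj exists_wp top_coeff)
open scoped Classical

variable {F : Type*} [Field F]

/-- The monic irreducible polynomials of degree at most `D`. -/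
noncomputable def PrD (F : Type*) [Field F] [Fintype F] (D : ℕ) : Finset F[X] :=
  ((Finset.range (D + 1)).biUnion (fun d =>
    (Finset.univ : Finset (degreeLT F d)).image (fun r => wp r))).filter (fun p => Irreducible p)

lemma mem_PrD [Fintype F] {D : ℕ} {p : F[X]} :
    p ∈ PrD F D ↔ p.Monic ∧ Irreducible p ∧ p.natDegree ≤ D := by
  unfold PrD
  rw [Finset.mem_filter, Finset.mem_biUnion]
  constructor
  · rintro ⟨⟨d, hd, hp⟩, hirr⟩
    obtain ⟨r, -, rfl⟩ := Finset.mem_image.1 hp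
    rw [Finset.mem_range] at hd
    refine ⟨wp_monic r, hirr, ?_⟩
    rw [wp_natDegree]
    omega
  · rintro ⟨hm, hirr, hd⟩
    obtain ⟨r, hr⟩ := exists_wp hm rfl
    exact ⟨⟨p.natDegree, Finset.mem_range.2 (by omega),
      Finset.mem_image.2 ⟨r, Finset.mem_univ _, hr⟩⟩, hirr⟩

/-- The product of the small primes. -/
noncomputable def RD (F : Type*) [Field F] [Fintype F] (D : ℕ) : F[X] := ∏ p ∈ PrD F D, p

lemma RD_monic [Fintype F] (D : ℕ) : (RD F D).Monic :=
  monic_prod_of_monic _ _ (fun _ hp => (mem_PrD.1 hp).1)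

lemma RD_cop [Fintype F] {D : ℕ} {G : F[X]} (hG : IsCoprime G (RD F D)) {g : F[X]}
    (hg : g.Monic) (h1 : 1 ≤ g.natDegree) (hD : g.natDegree ≤ D) : ¬ g ∣ G := by
  intro hgG
  have hnu : ¬ IsUnit g := by
    intro hu
    rw [isUnit_iff_degree_eq_zero, degree_eq_natDegree hg.ne_zero] at hu
    have : g.natDegree = 0 := by exact_mod_cast hu
    omega
  obtain ⟨p, hpm, hpirr, hpg⟩ := exists_monic_irreducible_factor g hnu
  have h2 : p.natDegree ≤ D := le_trans (natDegree_le_of_dvd hpg hg.ne_zero) hD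
  have h3 : p ∣ RD F D := Finset.dvd_prod_of_mem (fun p => p) (mem_PrD.2 ⟨hpm, hpirr, h2⟩)
  exact hpirr.not_isUnit (hG.isUnit_of_dvd' (dvd_trans hpg hgG) h3)

/-- A nonsingular solution modulo a prime. -/
lemma loc_prime [Fintype F] {k n : ℕ} (hk : 0 < k) (hQ : 8 * k ^ 4 ≤ Fintype.card F) (hn : 2 ≤ n)
    (m : F[X]) {p : F[X]} (hm : p.Monic) (hp : Irreducible p) :
    ∃ β : Fin (n + 1) → F[X], p ∣ ∑ i, β i ^ k - m ∧ ¬ p ∣ β 0 := by
  have : Fact (Irreducible p) := ⟨hp⟩
  have : Module.Finite F (AdjoinRoot p) := hm.finite_adjoinRoot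
  have : Finite (AdjoinRoot p) := Module.finite_of_finite F
  let _ : Fintype (AdjoinRoot p) := Fintype.ofFinite _
  have hcard : Fintype.card F ≤ Fintype.card (AdjoinRoot p) :=
    Fintype.card_le_of_injective _ (algebraMap F (AdjoinRoot p)).injective
  obtain ⟨c, ⟨i, hi⟩, hsum⟩ := top_coeff (K := AdjoinRoot p) (s := n + 1) hk (le_trans hQ hcard)
    (by omega) (AdjoinRoot.mk p m)
  choose β hβ using fun j => AdjoinRoot.mk_surjective (g := p) (c (Equiv.swap 0 i j))
  refine ⟨β, ?_, ?_⟩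
  · rw [← AdjoinRoot.mk_eq_zero, map_sub, map_sum, sub_eq_zero, ← hsum]
    rw [← Equiv.sum_comp (Equiv.swap 0 i) (fun j => c j ^ k)]
    apply Finset.sum_congr rfl
    intro j _
    rw [map_pow, hβ]
  · rw [← AdjoinRoot.mk_eq_zero, hβ, Equiv.swap_apply_left]
    exact hi

/-- A nonsingular solution modulo the product of the small primes. -/
lemma loc_RD [Fintype F] {k n : ℕ} (hk : 0 < k) (hQ : 8 * k ^ 4 ≤ Fintype.card F) (hn : 2 ≤ n)
    (m : F[X]) (D : ℕ) :
    ∃ z : Fin (n + 1) → F[X], RD F D ∣ ∑ i, z i ^ k - m ∧ IsCoprime (z 0) (RD F D) := by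
  have h1 : ∀ p : F[X], ∃ β : Fin (n + 1) → F[X], p ∈ PrD F D →
      p ∣ ∑ i, β i ^ k - m ∧ ¬ p ∣ β 0 := by
    intro p
    by_cases hp : p ∈ PrD F D
    · obtain ⟨β, h⟩ := loc_prime hk hQ hn m (mem_PrD.1 hp).1 (mem_PrD.1 hp).2.1
      exact ⟨β, fun _ => h⟩
    · exact ⟨0, fun h => absurd h hp⟩
  choose β hβ using h1
  have hS : ∀ p ∈ PrD F D, p.Monic ∧ Irreducible p := fun p hp =>
    ⟨(mem_PrD.1 hp).1, (mem_PrD.1 hp).2.1⟩
  choose z hz using fun i => crt (fun p => β p i) (PrD F D) hS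
  refine ⟨z, ?_, ?_⟩
  · apply Finset.prod_dvd_of_coprime
    · intro p hp p' hp' hne
      have h2 := hS p hp
      have h3 := hS p' hp'
      refine (EuclideanDomain.dvd_or_coprime p p' h2.2).resolve_left ?_
      intro hdvd
      exact hne (eq_of_monic_of_associated h2.1 h3.1 (h2.2.associated_of_dvd h3.2 hdvd))
    · intro p hp
      have h2 : p ∣ ∑ i, z i ^ k - ∑ i, β p i ^ k := by
        rw [← Finset.sum_sub_distrib]
        apply Finset.dvd_sum
        intro i _
        exact dvd_trans (hz i p hp) (sub_dvd_pow_sub_pow _ _ _)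
      have h3 := dvd_add h2 (hβ p hp).1
      rwa [sub_add_sub_cancel] at h3
  · apply IsCoprime.prod_right
    intro p hp
    refine ((EuclideanDomain.dvd_or_coprime p (z 0) (hS p hp).2).resolve_left ?_).symm
    intro hdvd
    apply (hβ p hp).2
    have h2 := dvd_sub hdvd (hz 0 p hp)
    rwa [sub_sub_cancel] at h2

/-- Hensel's lemma: many solutions modulo `R E` above a nonsingular solution modulo `R`. -/
lemma NG_lower [Fintype F] {k n : ℕ} (a : Fin (n + 1) → F[X]) {m R E w : F[X]} (hR : R.Monic)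
    (hE : E.Monic) {z : Fin (n + 1) → F[X]} (hz : R ∣ ∑ i, a i * z i ^ k - m)
    (hw : w = (k : F[X]) * a 0 * z 0 ^ (k - 1)) (hw0 : w ≠ 0) (hwR : IsCoprime w R)
    {N : ℕ} (hEB : E ∣ R ^ N) :
    (Fintype.card F ^ E.natDegree) ^ n ≤ NG k a m (R * E) := by
  have hR0 : R ≠ 0 := hR.ne_zero
  obtain ⟨ρ, hρ1, hρ2⟩ := incr (k := k) (a 0) (z 0) w R hw (mul_ne_zero hw0 hR0)
  have hcopE : IsCoprime (w ^ 2) E := by
    have h1 : IsCoprime (w ^ 2) (R ^ N) := IsCoprime.pow hwR
    exact h1.of_isCoprime_of_dvd_right hEB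
  obtain ⟨u, v', huv⟩ := hcopE
  let xs : (Fin n → degreeLT F E.natDegree) → Fin n → F[X] := fun t i =>
    z i.succ + R * (t i : F[X])
  have hc : ∀ t, ∃ c : F[X], ∑ i : Fin n, a i.succ * xs t i ^ k + a 0 * z 0 ^ k - m = R * c := by
    intro t
    have h1 : R ∣ ∑ i : Fin n, a i.succ * xs t i ^ k - ∑ i : Fin n, a i.succ * z i.succ ^ k := by
      apply form_congr (fun i : Fin n => a i.succ)
      intro i
      exact ⟨(t i : F[X]), by simp only [xs]; ring⟩
    rw [Fin.sum_univ_succ] at hz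
    have h2 := dvd_add h1 hz
    have e : ∑ i : Fin n, a i.succ * xs t i ^ k - ∑ i : Fin n, a i.succ * z i.succ ^ k
        + (a 0 * z 0 ^ k + ∑ i : Fin n, a i.succ * z i.succ ^ k - m)
        = ∑ i : Fin n, a i.succ * xs t i ^ k + a 0 * z 0 ^ k - m := by ring
    rw [e] at h2
    exact h2
  choose c hc using hc
  choose v hv hvE using fun t => solve_one hE hEB hρ2 (u * c t)
  let ζ : (Fin n → degreeLT F E.natDegree) → Fin (n + 1) → F[X] := fun t =>
    Fin.cons (z 0 + w * R * v t) (xs t)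
  have hG : (R * E).Monic := hR.mul hE
  have hform : ∀ t, R * E ∣ ∑ i, a i * ζ t i ^ k - m := by
    intro t
    have h1 : ∑ i, a i * ζ t i ^ k - m = R * (c t + w ^ 2 * ρ (v t)) := by
      rw [Fin.sum_univ_succ]
      have e0 : ζ t 0 = z 0 + w * R * v t := rfl
      have e1 : ∀ i : Fin n, ζ t i.succ = xs t i := fun i => rfl
      simp only [e0, e1]
      linear_combination hρ1 (v t) + hc t
    rw [h1]
    apply mul_dvd_mul_left
    obtain ⟨d, hd⟩ := hvE t
    refine ⟨w ^ 2 * d + v' * c t, ?_⟩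
    linear_combination w ^ 2 * hd - c t * huv
  have hcard : (Fintype.card F ^ E.natDegree) ^ n
      = (Finset.univ : Finset (Fin n → degreeLT F E.natDegree)).card := by
    rw [Finset.card_univ, Fintype.card_fun, card_V, Fintype.card_fin]
  rw [hcard]
  unfold NG
  apply Finset.card_le_card_of_injOn
    (fun t => (fun i => ⟨ζ t i %ₘ (R * E), mod_mem hG rfl _⟩ :
      Fin (n + 1) → degreeLT F (R * E).natDegree))
  · intro t _
    rw [Finset.mem_coe, Finset.mem_filter]
    refine ⟨Finset.mem_univ _, ?_⟩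
    have h3 : R * E ∣ ∑ i, a i * (ζ t i %ₘ (R * E)) ^ k - ∑ i, a i * ζ t i ^ k := by
      apply form_congr
      intro i
      have := dvd_sub_mod (R * E) (ζ t i)
      rw [← dvd_neg, neg_sub] at this
      exact this
    have h4 := dvd_add h3 (hform t)
    rwa [sub_add_sub_cancel] at h4
  · intro t _ t' _ h
    funext i
    have h1 : ζ t i.succ %ₘ (R * E) = ζ t' i.succ %ₘ (R * E) :=
      congrArg Subtype.val (congrFun h i.succ)
    have h3 := dvd_sub (dvd_sub_mod (R * E) (ζ t i.succ)) (dvd_sub_mod (R * E) (ζ t' i.succ))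
    rw [h1, sub_sub_sub_cancel_right] at h3
    have e : ζ t i.succ - ζ t' i.succ = R * ((t i : F[X]) - (t' i : F[X])) := by
      change xs t i - xs t' i = _
      simp only [xs]
      ring
    rw [e] at h3
    apply Subtype.ext
    exact eq_of_dvd_V hE (t i).2 (t' i).2 ((mul_dvd_mul_iff_left hR0).1 h3)

lemma dn_lower [Fintype F] {k n : ℕ} (a : Fin (n + 1) → F[X]) {m R E w : F[X]} (hR : R.Monic)
    (hE : E.Monic) {z : Fin (n + 1) → F[X]} (hz : R ∣ ∑ i, a i * z i ^ k - m)
    (hw : w = (k : F[X]) * a 0 * z 0 ^ (k - 1)) (hw0 : w ≠ 0) (hwR : IsCoprime w R)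
    {N : ℕ} (hEB : E ∣ R ^ N) :
    (((Fintype.card F : ℝ) ^ R.natDegree) ^ n)⁻¹ ≤ dn k a m (R * E) := by
  have h3 := NG_lower a hR hE hz hw hw0 hwR hEB
  have hq0 : (0 : ℝ) < Fintype.card F := by exact_mod_cast Fintype.card_pos
  have h4 : ((Fintype.card F : ℝ) ^ E.natDegree) ^ n ≤ (NG k a m (R * E) : ℝ) := by
    exact_mod_cast h3
  unfold dn
  rw [hR.natDegree_mul hE, pow_add]
  set x := (Fintype.card F : ℝ) ^ R.natDegree with hx
  set y := (Fintype.card F : ℝ) ^ E.natDegree with hy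
  have hx0 : 0 < x := by positivity
  have hy0 : 0 < y := by positivity
  rw [le_div_iff₀ (by positivity)]
  calc (x ^ n)⁻¹ * (x * y) ^ (n + 1) = y ^ n * (x * y) := by
        rw [mul_pow, pow_succ, pow_succ]
        field_simp
    _ ≤ _ := mul_le_mul_of_nonneg_right h4 (by positivity)

/-- The uniform lower bound for sums of `k`-th powers. -/
lemma dn_lower_one [Fintype F] {k n : ℕ} (hk : 0 < k) (hkF : (k : F) ≠ 0)
    (hQ : 8 * k ^ 4 ≤ Fintype.card F)
    (hn : 2 ≤ n) (m : F[X]) (D : ℕ) {E : F[X]} (hE : E.Monic) {N : ℕ} (hEB : E ∣ RD F D ^ N) :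
    (((Fintype.card F : ℝ) ^ (RD F D).natDegree) ^ n)⁻¹
      ≤ dn k (fun _ : Fin (n + 1) => (1 : F[X])) m (RD F D * E) := by
  obtain ⟨z, hz, hz0⟩ := loc_RD hk hQ hn m D
  have hkX : IsUnit (k : F[X]) := by
    rw [← map_natCast (C : F →+* F[X]), isUnit_C]
    exact hkF.isUnit
  by_cases hz00 : z 0 = 0
  · -- then the product of the small primes is a unit
    have hu : IsUnit (RD F D) := by
      rw [hz00, isCoprime_zero_left] at hz0
      exact hz0
    have h1 : RD F D = 1 := (RD_monic D).isUnit_iff.1 hu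
    have h2 : E = 1 := by
      rw [h1, one_pow] at hEB
      exact hE.isUnit_iff.1 (isUnit_of_dvd_one hEB)
    rw [h1, h2, mul_one, natDegree_one]
    have h3 := dn_lower (k := k) (fun _ : Fin (n + 1) => (1 : F[X])) (m := m) (R := 1) (E := 1)
      (w := (k : F[X])) monic_one monic_one (z := fun _ => 1) (one_dvd _) (by simp)
      hkX.ne_zero isCoprime_one_right (N := 0) (one_dvd _)
    rw [natDegree_one, mul_one] at h3
    exact h3
  · refine dn_lower (k := k) (fun _ : Fin (n + 1) => (1 : F[X])) (w := (k : F[X]) * 1 * z 0 ^ (k - 1))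
      (RD_monic D) hE (z := z) ?_ rfl ?_ ?_ hEB
    · simp only [one_mul]
      exact hz
    · rw [mul_one]
      exact mul_ne_zero hkX.ne_zero (pow_ne_zero _ hz00)
    · rw [mul_one]
      apply IsCoprime.mul_left
      · obtain ⟨u, hu⟩ := hkX.exists_left_inv
        exact ⟨u, 0, by rw [hu, zero_mul, add_zero]⟩
      · exact hz0.pow_left

end Pool.Agent.H598.AA
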