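import Pool.Agent.H598.AA.Var
import Pool.Agent.H598.AA.Loc
import Pool.Agent.H598.AS.Waring

/-!
# The exceptional set
-/

namespace Pool.Agent.H598.AA

open Finset Polynomial Pool.Agent.H598.FQ Pool.Agent.H598.AS
open Pool.Agent.H598.DG (eight_le)
open scoped Classical

variable {F : Type*} [Field F] [Fintype F]

/-- Chebyshev. -/
lemma cheb {ι : Type*} [Fintype ι] (f : ι → ℝ) (hf : ∀ i, 0 ≤ f i) {t B : ℝ}
    (hB : ∑ i, f i ≤ B) (S : Finset ι) (hP : ∀ i ∈ S, t ≤ f i) :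
    (S.card : ℝ) * t ≤ B := by
  refine le_trans ?_ hB
  calc (S.card : ℝ) * t = ∑ _i ∈ S, t := by
        rw [Finset.sum_const, nsmul_eq_mul]
    _ ≤ ∑ i ∈ S, f i := Finset.sum_le_sum hP
    _ ≤ _ := Finset.sum_le_sum_of_subset_of_nonneg (Finset.subset_univ _)
        (fun i _ _ => hf i)

/-- The densities of a modulus without small prime factors are mostly close to one. -/
lemma few_small {ψ : AddChar F ℂ} (hψ : ψ ≠ 1) {k : ℕ} (hk : 2 ≤ k)
    (hch : ∀ i : ℕ, 1 ≤ i → i ≤ k → ((i : ℕ) : F) ≠ 0) (hbig : Big (Fintype.card F) k)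
    {s : ℕ} (hs : k + 1 ≤ s) {a : Fin s → F[X]} (ha : ∀ i, a i ≠ 0) {D : ℕ} {G : F[X]}
    (hG : G.Monic) (hGD : IsCoprime G (RD F D)) {W : ℕ} (hW : G.natDegree ≤ W) (b : F[X]) :
    ((Finset.univ.filter (fun m : degreeLT F W => dn k a (b + (m : F[X])) G < 1 / 2)).card : ℝ)
      * (1 / 4) ≤ (Ca F (dbl a) / (15 * 16 ^ D)) * (Fintype.card F : ℝ) ^ W := by
  apply cheb (fun m : degreeLT F W => (dn k a (b + (m : F[X])) G - 1) ^ 2)
    (fun _ => sq_nonneg _)
  · have h1 : ∀ m : degreeLT F W, (dn k a (b + (m : F[X])) G - 1) ^ 2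
        = dn k a (b + (m : F[X])) G ^ 2 - 2 * dn k a (b + (m : F[X])) G + 1 := by
      intro m; ring
    rw [Finset.sum_congr rfl (fun m _ => h1 m), Finset.sum_add_distrib, Finset.sum_sub_distrib,
      ← Finset.mul_sum, dn_sq a hG b hW, dn_mean a hG b hW, Finset.sum_const, Finset.card_univ,
      card_V, nsmul_eq_mul, mul_one]
    push_cast
    have h2 := dn_coprime hψ hk hch hbig (show 2 * k + 1 ≤ s + s by omega) (dbl_ne ha) 0
      (D := D) hG (fun g hg hg1 hgD => RD_cop hGD hg hg1 hgD)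
    have h3 := (abs_le.1 h2).2
    have hq : (0 : ℝ) ≤ (Fintype.card F : ℝ) ^ W := by positivity
    nlinarith
  · intro m hm
    have h4 : dn k a (b + (m : F[X])) G < 1 / 2 := (Finset.mem_filter.1 hm).2
    nlinarith

/-- **The exceptional set is small.** -/
theorem exc {ψ : AddChar F ℂ} (hψ : ψ ≠ 1) {k : ℕ} (hk : 2 ≤ k)
    (hch : ∀ i : ℕ, 1 ≤ i → i ≤ k → ((i : ℕ) : F) ≠ 0) (hbig : Big (Fintype.card F) k)
    {s : ℕ} (hs : k + 1 ≤ s) {ε : ℝ} (hε : 0 < ε) :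
    ∃ c₀ : ℝ, 0 < c₀ ∧ ∃ P₀ : ℕ, ∀ P, P₀ ≤ P → ∀ c : Fin s → F, (∃ i, c i ≠ 0) →
      ((Finset.univ.filter (fun m : degreeLT F (k * P) =>
        rr k (fun _ : Fin s => (1 : F[X])) (C (∑ i, c i ^ k) * X ^ (k * P) + (m : F[X]))
          (k * P) c < c₀)).card : ℝ) ≤ ε * (Fintype.card F : ℝ) ^ (k * P) := by
  obtain ⟨n, rfl⟩ : ∃ n, s = n + 1 := ⟨s - 1, by omega⟩
  obtain ⟨a, ha'⟩ : ∃ a : Fin (n + 1) → F[X], a = fun _ => 1 := ⟨_, rfl⟩
  rw [← ha']
  have ha : ∀ i, a i ≠ 0 := fun i => by rw [ha']; exact one_ne_zero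
  have hq0 : (0 : ℝ) < Fintype.card F := by exact_mod_cast Fintype.card_pos
  obtain ⟨D, hD⟩ := exists_D (C := Ca F (dbl a)) (show (0 : ℝ) < ε / 8 by positivity)
  obtain ⟨κ, hκ⟩ : ∃ κ : ℝ, κ = (((Fintype.card F : ℝ) ^ (RD F D).natDegree) ^ n)⁻¹ := ⟨_, rfl⟩
  have hκ0 : 0 < κ := by rw [hκ]; positivity
  obtain ⟨H, hH, hvar⟩ := variance hψ hk hch hbig hs a ha
    (show (0 : ℝ) < ε * κ ^ 2 / 32 by positivity)
  have hRm := RD_monic (F := F) D
  obtain ⟨G, hGdef⟩ : ∃ G : F[X], G = RD F D * H := ⟨_, rfl⟩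
  have hG : G.Monic := by rw [hGdef]; exact hRm.mul hH
  obtain ⟨W₀, hW₀⟩ := hvar G hG (by rw [hGdef]; exact Dvd.intro_left _ rfl)
  obtain ⟨G₁, G₂, m1, m2, hGG, hcop, N, hN⟩ := exists_split (B := RD F D) _ G hG rfl
  have hRG₁ : RD F D ∣ G₁ := by
    apply hcop.symm.dvd_of_dvd_mul_right
    rw [← hGG, hGdef]
    exact Dvd.intro _ rfl
  obtain ⟨E, hE⟩ := hRG₁
  have hEm : E.Monic := hRm.of_mul_monic_left (by rw [← hE]; exact m1)
  have hEB : E ∣ RD F D ^ N := dvd_trans (by rw [hE]; exact Dvd.intro_left _ rfl) hN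
  refine ⟨κ / 4, by positivity, W₀ + G.natDegree, fun P hP c hc => ?_⟩
  have hkP : P ≤ k * P := Nat.le_mul_of_pos_left _ (by omega)
  have hG₂W : G₂.natDegree ≤ k * P := by
    have : G.natDegree = G₁.natDegree + G₂.natDegree := by rw [hGG, m1.natDegree_mul m2]
    omega
  have hvv : vv k a (k * P) c = ∑ i, c i ^ k := by
    unfold vv
    rw [ha']
    simp
  have h1 := few_small hψ hk hch hbig hs ha (D := D) m2 hcop hG₂W
    (C (∑ i, c i ^ k) * X ^ (k * P))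
  have h2 := hW₀ (k * P) (by omega) c (by
    obtain ⟨i, hi⟩ := hc
    refine ⟨i, hi, ?_⟩
    rw [ha']
    simp)
  rw [hvv] at h2
  have h3 : ∀ m : F[X], κ ≤ dn k a m G₁ := by
    intro m
    rw [hκ, hE, ha']
    exact dn_lower_one (by omega) (hch k (by omega) le_rfl) (eight_le hk hbig) (by omega) m D
      hEm hEB
  have h4 : ∀ m : F[X], κ * dn k a m G₂ ≤ dn k a m G := by
    intro m
    rw [hGG]
    refine le_trans (mul_le_mul_of_nonneg_right (h3 m) (dn_nonneg k a m G₂)) ?_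
    apply dn_mul k a m m1 m2
    have : IsCoprime (RD F D ^ N) G₂ := IsCoprime.pow_left hcop.symm
    exact this.of_isCoprime_of_dvd_left hN
  have h5 := cheb _ (fun _ => sq_nonneg _) h2
    (Finset.univ.filter (fun m : degreeLT F (k * P) =>
      rr k a (C (∑ i, c i ^ k) * X ^ (k * P) + (m : F[X]))
        (k * P) c < κ / 4 ∧ κ / 2 ≤ dn k a (C (∑ i, c i ^ k) * X ^ (k * P) + (m : F[X])) G))
    (t := (κ / 4) ^ 2) (by
      intro m hm
      replace hm := (Finset.mem_filter.1 hm).2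
      have h6 : κ / 4 ≤ dn k a (C (∑ i, c i ^ k) * X ^ (k * P) + (m : F[X])) G
          - rr k a (C (∑ i, c i ^ k) * X ^ (k * P) + (m : F[X])) (k * P) c := by
        linarith [hm.1, hm.2]
      have h7 : (0 : ℝ) ≤ κ / 4 := by positivity
      nlinarith)
  have hsub : Finset.univ.filter (fun m : degreeLT F (k * P) =>
        rr k a (C (∑ i, c i ^ k) * X ^ (k * P) + (m : F[X])) (k * P) c < κ / 4)
      ⊆ Finset.univ.filter (fun m : degreeLT F (k * P) =>
          dn k a (C (∑ i, c i ^ k) * X ^ (k * P) + (m : F[X])) G₂ < 1 / 2)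
        ∪ Finset.univ.filter (fun m : degreeLT F (k * P) =>
          rr k a (C (∑ i, c i ^ k) * X ^ (k * P) + (m : F[X])) (k * P) c < κ / 4 ∧
          κ / 2 ≤ dn k a (C (∑ i, c i ^ k) * X ^ (k * P) + (m : F[X])) G) := by
    intro m hm
    rw [Finset.mem_filter] at hm
    rw [Finset.mem_union, Finset.mem_filter, Finset.mem_filter]
    by_cases h8 : dn k a (C (∑ i, c i ^ k) * X ^ (k * P) + (m : F[X])) G₂ < 1 / 2
    · left
      exact ⟨Finset.mem_univ _, h8⟩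
    · right
      refine ⟨Finset.mem_univ _, hm.2, ?_⟩
      push Not at h8
      refine le_trans ?_ (h4 _)
      have := mul_le_mul_of_nonneg_left h8 hκ0.le
      linarith
  have h9 := Finset.card_le_card hsub
  have h10 := le_trans h9 (Finset.card_union_le _ _)
  have h11 : ((Finset.univ.filter (fun m : degreeLT F (k * P) =>
        rr k a (C (∑ i, c i ^ k) * X ^ (k * P) + (m : F[X])) (k * P) c < κ / 4)).card : ℝ)
      ≤ ((Finset.univ.filter (fun m : degreeLT F (k * P) =>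
          dn k a (C (∑ i, c i ^ k) * X ^ (k * P) + (m : F[X])) G₂ < 1 / 2)).card : ℝ)
        + ((Finset.univ.filter (fun m : degreeLT F (k * P) =>
          rr k a (C (∑ i, c i ^ k) * X ^ (k * P) + (m : F[X])) (k * P) c < κ / 4 ∧
          κ / 2 ≤ dn k a (C (∑ i, c i ^ k) * X ^ (k * P) + (m : F[X])) G)).card : ℝ) := by
    exact_mod_cast h10
  set x := ((Finset.univ.filter (fun m : degreeLT F (k * P) =>
          dn k a (C (∑ i, c i ^ k) * X ^ (k * P) + (m : F[X])) G₂ < 1 / 2)).card : ℝ)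
  set y := ((Finset.univ.filter (fun m : degreeLT F (k * P) =>
          rr k a (C (∑ i, c i ^ k) * X ^ (k * P) + (m : F[X])) (k * P) c < κ / 4 ∧
          κ / 2 ≤ dn k a (C (∑ i, c i ^ k) * X ^ (k * P) + (m : F[X])) G)).card : ℝ)
  have hQ : (0 : ℝ) < (Fintype.card F : ℝ) ^ (k * P) := by positivity
  set Q := (Fintype.card F : ℝ) ^ (k * P)
  have h12 : x ≤ ε / 2 * Q := by
    have := mul_le_mul_of_nonneg_right hD hQ.le
    linarith
  have h13 : y ≤ ε / 2 * Q := by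
    have h14 : y * (κ ^ 2 / 16) ≤ ε / 2 * Q * (κ ^ 2 / 16) := by
      have e1 : (κ / 4) ^ 2 = κ ^ 2 / 16 := by ring
      rw [e1] at h5
      refine le_trans h5 (le_of_eq ?_)
      ring
    exact le_of_mul_le_mul_right h14 (by positivity)
  linarith

end Pool.Agent.H598.AA
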