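import Pool.Agent.H598.AS.Pos

/-!
# Sums over boxes of functions of the residue classes
-/

namespace Pool.Agent.H598.AA

open Finset Polynomial Pool.Agent.H598.FQ Pool.Agent.H598.AS
open Pool.Agent.H598.DG (dvd_sub_mod mod_eq_of_dvd)
open scoped Classical

variable {F : Type*} [Field F] [Fintype F]

/-- Sums of real functions of the residue class. -/
lemma sum_resR {g : F[X]} {d : ℕ} (hg : g.Monic) (hd : g.natDegree = d) (e : ℕ) (f : F[X] → ℝ)
    (hf : ∀ y y', g ∣ y - y' → f y = f y') :
    ∑ z : degreeLT F (d + e), f z = (Fintype.card F : ℝ) ^ e * ∑ v : degreeLT F d, f v := by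
  have h := sum_res hg hd e (fun y => (f y : ℂ)) (fun y y' h => by
    rw [hf y y' h])
  exact_mod_cast h

/-- The residue of a polynomial. -/
noncomputable def rs {G : F[X]} (hG : G.Monic) (y : F[X]) : degreeLT F G.natDegree :=
  ⟨y %ₘ G, mod_mem hG rfl _⟩

omit [Fintype F] in
lemma rs_dvd {G : F[X]} (hG : G.Monic) (y : F[X]) : G ∣ y - (rs hG y : F[X]) :=
  dvd_sub_mod G y

omit [Fintype F] in
lemma rs_eq_iff {G : F[X]} (hG : G.Monic) (y : F[X]) (z : degreeLT F G.natDegree) :
    rs hG y = z ↔ G ∣ y - z := by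
  constructor
  · rintro rfl
    exact rs_dvd hG y
  · intro h
    apply Subtype.ext
    apply eq_of_dvd_V hG (rs hG y).2 z.2
    have h2 := dvd_sub h (rs_dvd hG y)
    have e : y - (z : F[X]) - (y - (rs hG y : F[X])) = (rs hG y : F[X]) - z := by ring
    rwa [e] at h2

/-- The fibres of the residue map on a box. -/
lemma card_fib {G : F[X]} (hG : G.Monic) (b : F[X]) {N e : ℕ} (hN : N = G.natDegree + e)
    (z : degreeLT F G.natDegree) :
    (Finset.univ.filter (fun y : degreeLT F N => rs hG (b + (y : F[X])) = z)).card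
      = Fintype.card F ^ e := by
  subst hN
  have h1 := sum_resR hG rfl e (fun y => if G ∣ b + y - z then (1 : ℝ) else 0) (by
    intro y y' h
    have h2 : (G ∣ b + y - z) ↔ (G ∣ b + y' - z) := by
      have e1 : b + y - (z : F[X]) = (y - y') + (b + y' - z) := by ring
      rw [e1]
      exact (dvd_add_right h)
    simp only [h2])
  have h2 : ∀ v : degreeLT F G.natDegree, (if G ∣ b + (v : F[X]) - z then (1 : ℝ) else 0)
      = if v = rs hG (z - b) then 1 else 0 := by
    intro v
    have h3 : (G ∣ b + (v : F[X]) - z) ↔ v = rs hG (z - b) := by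
      rw [eq_comm, rs_eq_iff, ← dvd_neg]
      have e1 : -(b + (v : F[X]) - z) = (z : F[X]) - b - v := by ring
      rw [e1]
    simp only [h3]
  rw [Finset.sum_congr rfl (fun v _ => h2 v), Finset.sum_ite_eq' Finset.univ,
    if_pos (Finset.mem_univ _), mul_one, ← Finset.sum_filter, Finset.sum_const, nsmul_eq_mul,
    mul_one] at h1
  have h4 : (Finset.univ.filter (fun y : degreeLT F (G.natDegree + e) =>
      rs hG (b + (y : F[X])) = z)) = Finset.univ.filter (fun y : degreeLT F (G.natDegree + e) =>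
      G ∣ b + (y : F[X]) - z) := by
    apply Finset.filter_congr
    intro y _
    exact rs_eq_iff hG _ _
  rw [h4]
  exact_mod_cast h1

/-- The fibres for tuples. -/
lemma card_fib_pi {G : F[X]} (hG : G.Monic) {s : ℕ} (b : Fin s → F[X]) {P e : Fin s → ℕ}
    (hP : ∀ i, P i = G.natDegree + e i) (z : Fin s → degreeLT F G.natDegree) :
    (Finset.univ.filter (fun y : (∀ i, degreeLT F (P i)) =>
      (fun i => rs hG (b i + (y i : F[X]))) = z)).card = ∏ i, Fintype.card F ^ e i := by
  have h1 : Finset.univ.filter (fun y : (∀ i, degreeLT F (P i)) =>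
      (fun i => rs hG (b i + (y i : F[X]))) = z)
      = Fintype.piFinset (fun i => Finset.univ.filter (fun y : degreeLT F (P i) =>
        rs hG (b i + (y : F[X])) = z i)) := by
    ext y
    rw [Finset.mem_filter, Fintype.mem_piFinset]
    constructor
    · rintro ⟨-, h⟩ i
      exact Finset.mem_filter.2 ⟨Finset.mem_univ _, congrFun h i⟩
    · intro h
      exact ⟨Finset.mem_univ _, funext (fun i => (Finset.mem_filter.1 (h i)).2)⟩
  rw [h1, Fintype.card_piFinset]
  exact Finset.prod_congr rfl (fun i _ => card_fib hG (b i) (hP i) (z i))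

/-- Sums over boxes of functions of the residue classes. -/
lemma sum_pi {G : F[X]} (hG : G.Monic) {s : ℕ} (b : Fin s → F[X]) {P e : Fin s → ℕ}
    (hP : ∀ i, P i = G.natDegree + e i) (Φ : (Fin s → F[X]) → ℝ)
    (hΦ : ∀ x x' : Fin s → F[X], (∀ i, G ∣ x i - x' i) → Φ x = Φ x') :
    ∑ y : (∀ i, degreeLT F (P i)), Φ (fun i => b i + (y i : F[X]))
      = (∏ i, (Fintype.card F : ℝ) ^ e i) *
        ∑ z : Fin s → degreeLT F G.natDegree, Φ (fun i => (z i : F[X])) := by
  rw [← Finset.sum_fiberwise Finset.univ (fun y : (∀ i, degreeLT F (P i)) =>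
    (fun i => rs hG (b i + (y i : F[X])))), Finset.mul_sum]
  apply Finset.sum_congr rfl
  intro z _
  have h1 : ∀ y ∈ Finset.univ.filter (fun y : (∀ i, degreeLT F (P i)) =>
      (fun i => rs hG (b i + (y i : F[X]))) = z),
      Φ (fun i => b i + (y i : F[X])) = Φ (fun i => (z i : F[X])) := by
    intro y hy
    apply hΦ
    intro i
    exact (rs_eq_iff hG _ _).1 (congrFun (Finset.mem_filter.1 hy).2 i)
  rw [Finset.sum_congr rfl h1, Finset.sum_const, card_fib_pi hG b hP z, nsmul_eq_mul]
  congr 1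
  push_cast
  rfl

/-- Sums over one box. -/
lemma sum_one {G : F[X]} (hG : G.Monic) (b : F[X]) {N e : ℕ} (hN : N = G.natDegree + e)
    (f : F[X] → ℝ) (hf : ∀ y y', G ∣ y - y' → f y = f y') :
    ∑ y : degreeLT F N, f (b + (y : F[X]))
      = (Fintype.card F : ℝ) ^ e * ∑ z : degreeLT F G.natDegree, f z := by
  rw [← Finset.sum_fiberwise Finset.univ (fun y : degreeLT F N => rs hG (b + (y : F[X]))),
    Finset.mul_sum]
  apply Finset.sum_congr rfl
  intro z _
  have h1 : ∀ y ∈ Finset.univ.filter (fun y : degreeLT F N => rs hG (b + (y : F[X])) = z),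
      f (b + (y : F[X])) = f z := by
    intro y hy
    apply hf
    exact (rs_eq_iff hG _ _).1 (Finset.mem_filter.1 hy).2
  rw [Finset.sum_congr rfl h1, Finset.sum_const, card_fib hG b hN z, nsmul_eq_mul]
  push_cast
  rfl

end Pool.Agent.H598.AA
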