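import Pool.Agent.H598.AA.Exc
import Pool.Agent.H598.AS.Box

/-!
# Almost all polynomials
-/

namespace Pool.Agent.H598.AA

open Finset Polynomial Pool.Agent.H598.FQ Pool.Agent.H598.AS
open Pool.Agent.H598.DG (eight_le)
open Pool.Agent.H598.TK (top_coeff)
open scoped Classical

variable {F : Type*} [Field F] [Fintype F]

/-- The number of strict representations. -/
noncomputable def Rs (k s : ℕ) (m : F[X]) : ℕ :=
  Nat.card {x : Fin s → F[X] // (∀ i, k * (x i).natDegree < m.natDegree + k) ∧
    ∑ i, x i ^ k = m}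

/-- Splitting off the leading coefficient. -/
lemma card_split (W : ℕ) (Ψ : F[X] → Prop) [DecidablePred Ψ] :
    ((VF F (W + 1)).filter Ψ).card ≤ ∑ v : F, (Finset.univ.filter (fun m : degreeLT F W =>
      Ψ (C v * X ^ W + (m : F[X])))).card := by
  refine le_trans (Finset.card_le_card (t := Finset.univ.biUnion (fun v : F =>
    (Finset.univ.filter (fun m : degreeLT F W => Ψ (C v * X ^ W + (m : F[X])))).image
      (fun m : degreeLT F W => C v * X ^ W + (m : F[X])))) ?_) ?_
  · intro m hm
    rw [Finset.mem_filter, mem_VF] at hm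
    rw [Finset.mem_biUnion]
    refine ⟨m.coeff W, Finset.mem_univ _, ?_⟩
    rw [Finset.mem_image]
    have h1 : m - C (m.coeff W) * X ^ W ∈ degreeLT F W := by
      apply mem_V_of_succ
      · apply Submodule.sub_mem _ hm.1
        rw [mem_V_succ_iff]
        exact natDegree_C_mul_X_pow_le _ _
      · rw [coeff_sub, coeff_C_mul_X_pow, if_pos rfl, sub_self]
    refine ⟨⟨_, h1⟩, ?_, ?_⟩
    · rw [Finset.mem_filter]
      refine ⟨Finset.mem_univ _, ?_⟩
      simp only [add_sub_cancel]
      exact hm.2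
    · simp only [add_sub_cancel]
  · refine le_trans Finset.card_biUnion_le ?_
    apply Finset.sum_le_sum
    intro v _
    exact Finset.card_image_le

/-- The strict representations are at least the solutions with given leading coefficients. -/
lemma ZW_le_Rs {k s P : ℕ} (hk : 0 < k) {m : F[X]} (h1 : m.natDegree ≤ k * P)
    (h2 : k * P < m.natDegree + k) (c : Fin s → F) :
    ZW k (fun _ : Fin s => (1 : F[X])) m (k * P) c ≤ Rs k s m := by
  have hfin : Finite {x : Fin s → F[X] // (∀ i, k * (x i).natDegree < m.natDegree + k) ∧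
      ∑ i, x i ^ k = m} := by
    apply Finite.of_injective (fun x : {x : Fin s → F[X] //
      (∀ i, k * (x i).natDegree < m.natDegree + k) ∧ ∑ i, x i ^ k = m} =>
      (fun i => ⟨x.1 i, by
        rw [mem_V_succ_iff]
        have h3 := x.2.1 i
        by_contra hcon
        push Not at hcon
        have h4 : k * (P + 1) ≤ k * (x.1 i).natDegree := Nat.mul_le_mul_left _ hcon
        have h5 : k * (P + 1) = k * P + k := by ring
        omega⟩ : Fin s → degreeLT F (P + 1)))
    intro x x' h
    apply Subtype.ext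
    funext i
    exact congrArg Subtype.val (congrFun h i)
  unfold ZW Rs
  rw [← Fintype.card_coe, ← Nat.card_eq_fintype_card]
  have hd : ∀ y : (∀ _i : Fin s, degreeLT F (dP k (k * P) (1 : F[X]))), ∀ i,
      (C (c i) * X ^ (dP k (k * P) (1 : F[X])) + (y i : F[X])).natDegree ≤ P := by
    intro y i
    rw [← mem_V_succ_iff]
    apply Submodule.add_mem
    · rw [mem_V_succ_iff, dP_one hk]
      exact natDegree_C_mul_X_pow_le _ _
    · have h3 := (y i).2
      exact V_mono (by rw [dP_one hk]; exact Nat.le_succ _) h3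
  apply Nat.card_le_card_of_injective (fun y => ⟨fun i =>
    C (c i) * X ^ (dP k (k * P) (1 : F[X])) + (y.1 i : F[X]), fun i => by
      have h3 := Nat.mul_le_mul_left k (hd y.1 i)
      exact lt_of_le_of_lt h3 h2, by
      have h4 := (Finset.mem_filter.1 y.2).2
      simp only [one_mul] at h4
      exact h4⟩)
  intro y y' h
  apply Subtype.ext
  funext i
  apply Subtype.ext
  have h3 := congrFun (congrArg Subtype.val h) i
  exact add_left_cancel h3

/-- The exceptional polynomials. -/
def Ex (k s : ℕ) (c : ℝ) (m : F[X]) : Prop :=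
  (Rs k s m : ℝ) < c * (Fintype.card F : ℝ) ^ ((s - k) * (m.natDegree / k))

/-- The exceptional polynomials of exact degree `d`. -/
lemma card_Ex {ψ : AddChar F ℂ} (hψ : ψ ≠ 1) {k : ℕ} (hk : 2 ≤ k)
    (hch : ∀ i : ℕ, 1 ≤ i → i ≤ k → ((i : ℕ) : F) ≠ 0) (hbig : Big (Fintype.card F) k)
    {s : ℕ} (hs : k + 1 ≤ s) {ε : ℝ} (hε : 0 < ε) :
    ∃ c₀ : ℝ, 0 < c₀ ∧ ∃ N : ℕ, ∀ d, N ≤ d →
      (((VF F (d + 1)).filter (fun m => m.natDegree = d ∧ Ex k s c₀ m)).card : ℝ)
        ≤ ε * (Fintype.card F : ℝ) ^ d := by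
  have hq1 : (1 : ℝ) ≤ Fintype.card F := by exact_mod_cast Fintype.card_pos
  have hq0 : (0 : ℝ) < Fintype.card F := by linarith
  obtain ⟨c₀, hc₀, P₀, hP₀⟩ := exc hψ hk hch hbig hs
    (show (0 : ℝ) < ε / (Fintype.card F : ℝ) ^ k by positivity)
  refine ⟨c₀, hc₀, k * P₀ + 1, fun d hd => ?_⟩
  obtain ⟨P, hP1, hP2⟩ : ∃ P, d ≤ k * P ∧ k * P < d + k := by
    refine ⟨(d + k - 1) / k, ?_, ?_⟩
    · have h1 := Nat.div_add_mod (d + k - 1) k
      have h2 : (d + k - 1) % k < k := Nat.mod_lt _ (by omega)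
      omega
    · have := Nat.mul_div_le (d + k - 1) k
      omega
  have hPP : P₀ ≤ P := by
    by_contra hcon
    push Not at hcon
    have := Nat.mul_le_mul_left k hcon.le
    omega
  have h1 : ((VF F (d + 1)).filter (fun m => m.natDegree = d ∧ Ex k s c₀ m)).card
      ≤ ((VF F (k * P + 1)).filter (fun m => m.natDegree = d ∧ Ex k s c₀ m)).card := by
    apply Finset.card_le_card
    intro m hm
    rw [Finset.mem_filter, mem_VF] at *
    exact ⟨V_mono (by omega) hm.1, hm.2⟩
  have h2 := le_trans h1 (card_split (k * P) (fun m => m.natDegree = d ∧ Ex k s c₀ m))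
  have h3 : ∀ v : F, ((Finset.univ.filter (fun m : degreeLT F (k * P) =>
      (C v * X ^ (k * P) + (m : F[X])).natDegree = d ∧
        Ex k s c₀ (C v * X ^ (k * P) + (m : F[X])))).card : ℝ)
      ≤ ε / (Fintype.card F : ℝ) ^ k * (Fintype.card F : ℝ) ^ (k * P) := by
    intro v
    obtain ⟨c, hc, hcv⟩ := top_coeff (K := F) (s := s) (k := k) (by omega) (eight_le hk hbig)
      (by omega) v
    refine le_trans ?_ (hP₀ P hPP c hc)
    rw [hcv]
    have h4 : (Finset.univ.filter (fun m : degreeLT F (k * P) =>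
      (C v * X ^ (k * P) + (m : F[X])).natDegree = d ∧
        Ex k s c₀ (C v * X ^ (k * P) + (m : F[X])))).card
        ≤ (Finset.univ.filter (fun m : degreeLT F (k * P) =>
          rr k (fun _ : Fin s => (1 : F[X])) (C v * X ^ (k * P) + (m : F[X]))
            (k * P) c < c₀)).card := by
      apply Finset.card_le_card
      intro m hm
      rw [Finset.mem_filter] at *
      refine ⟨Finset.mem_univ _, ?_⟩
      obtain ⟨-, hm1, hm2⟩ := hm
      set M := C v * X ^ (k * P) + (m : F[X])
      unfold Ex at hm2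
      have h5 := ZW_le_Rs (k := k) (s := s) (P := P) (m := M) (by omega) (by rw [hm1]; exact hP1)
        (by rw [hm1]; exact hP2) c
      have h6 : (ZW k (fun _ : Fin s => (1 : F[X])) M (k * P) c : ℝ) ≤ (Rs k s M : ℝ) := by
        exact_mod_cast h5
      have h7 : (Fintype.card F : ℝ) ^ ((s - k) * (M.natDegree / k))
          ≤ (Fintype.card F : ℝ) ^ ((s - k) * P) := by
        apply pow_le_pow_right₀ hq1
        apply Nat.mul_le_mul_left
        rw [hm1]
        exact Nat.div_le_of_le_mul hP1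
      have h8 : (ZW k (fun _ : Fin s => (1 : F[X])) M (k * P) c : ℝ)
          < c₀ * (Fintype.card F : ℝ) ^ ((s - k) * P) :=
        lt_of_lt_of_le (lt_of_le_of_lt h6 hm2) (mul_le_mul_of_nonneg_left h7 hc₀.le)
      unfold rr
      have hprod : ∏ i : Fin s, (Fintype.card F : ℝ) ^
          (dP k (k * P) ((fun _ : Fin s => (1 : F[X])) i))
          = (Fintype.card F : ℝ) ^ ((s - k) * P) * (Fintype.card F : ℝ) ^ (k * P) := by
        rw [Finset.prod_congr rfl (fun i _ => by rw [dP_one (by omega) P]), Finset.prod_const,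
          Finset.card_univ, Fintype.card_fin, ← pow_mul, ← pow_add]
        congr 1
        obtain ⟨r, hr⟩ : ∃ r, s = r + k := ⟨s - k, by omega⟩
        rw [hr, Nat.add_sub_cancel]; ring
      rw [hprod, mul_div_mul_right _ _ (by positivity), div_lt_iff₀ (by positivity)]
      exact h8
    exact_mod_cast h4
  have h9 : (((VF F (d + 1)).filter (fun m => m.natDegree = d ∧ Ex k s c₀ m)).card : ℝ)
      ≤ ∑ _v : F, ε / (Fintype.card F : ℝ) ^ k * (Fintype.card F : ℝ) ^ (k * P) := by
    refine le_trans ?_ (Finset.sum_le_sum (fun v _ => h3 v))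
    exact_mod_cast h2
  refine le_trans h9 ?_
  rw [Finset.sum_const, Finset.card_univ, nsmul_eq_mul]
  have h10 : (Fintype.card F : ℝ) * (Fintype.card F : ℝ) ^ (k * P)
      ≤ (Fintype.card F : ℝ) ^ d * (Fintype.card F : ℝ) ^ k := by
    rw [← pow_succ', ← pow_add]
    exact pow_le_pow_right₀ hq1 (by omega)
  calc (Fintype.card F : ℝ) * (ε / (Fintype.card F : ℝ) ^ k * (Fintype.card F : ℝ) ^ (k * P))
      = ε / (Fintype.card F : ℝ) ^ k * ((Fintype.card F : ℝ) * (Fintype.card F : ℝ) ^ (k * P)) := by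
        ring
    _ ≤ ε / (Fintype.card F : ℝ) ^ k *
        ((Fintype.card F : ℝ) ^ d * (Fintype.card F : ℝ) ^ k) :=
        mul_le_mul_of_nonneg_left h10 (by positivity)
    _ = _ := by field_simp

/-- The exceptional polynomials of bounded degree. -/
lemma card_Ex_le {ψ : AddChar F ℂ} (hψ : ψ ≠ 1) {k : ℕ} (hk : 2 ≤ k)
    (hch : ∀ i : ℕ, 1 ≤ i → i ≤ k → ((i : ℕ) : F) ≠ 0) (hbig : Big (Fintype.card F) k)
    {s : ℕ} (hs : k + 1 ≤ s) {ε : ℝ} (hε : 0 < ε) :
    ∃ c₀ : ℝ, 0 < c₀ ∧ ∃ N : ℕ, ∀ n, N ≤ n →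
      (((VF F (n + 1)).filter (fun m => Ex k s c₀ m)).card : ℝ)
        ≤ ε * (Fintype.card F : ℝ) ^ (n + 1) := by
  have hq2 : (2 : ℝ) ≤ Fintype.card F := by exact_mod_cast Fintype.one_lt_card
  have hq0 : (0 : ℝ) < Fintype.card F := by linarith
  obtain ⟨c₀, hc₀, N, hN⟩ := card_Ex hψ hk hch hbig hs (show (0 : ℝ) < ε / 2 by positivity)
  set q := (Fintype.card F : ℝ) with hq
  have h1 : ∀ e, (((VF F (N + e + 1)).filter (fun m => Ex k s c₀ m)).card : ℝ)
      ≤ q ^ (N + 1) + ε * q ^ (N + e) := by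
    intro e
    induction e with
    | zero =>
      have h2 : ((VF F (N + 0 + 1)).filter (fun m => Ex k s c₀ m)).card
          ≤ Fintype.card F ^ (N + 1) := by
        refine le_trans (Finset.card_filter_le _ _) ?_
        rw [card_VF, add_zero]
      have h3 : (((VF F (N + 0 + 1)).filter (fun m => Ex k s c₀ m)).card : ℝ) ≤ q ^ (N + 1) := by
        rw [hq]; exact_mod_cast h2
      have : 0 ≤ ε * q ^ (N + 0) := by positivity
      linarith
    | succ e ih =>
      have hsub : (VF F (N + (e + 1) + 1)).filter (fun m => Ex k s c₀ m)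
          ⊆ (VF F (N + e + 1)).filter (fun m => Ex k s c₀ m)
            ∪ (VF F (N + (e + 1) + 1)).filter (fun m => m.natDegree = N + (e + 1)
              ∧ Ex k s c₀ m) := by
        intro m hm
        rw [Finset.mem_union]
        rw [Finset.mem_filter, mem_VF, mem_V_succ_iff] at *
        rw [Finset.mem_filter, mem_VF, mem_V_succ_iff]
        by_cases h2 : m.natDegree = N + (e + 1)
        · right; exact ⟨hm.1, h2, hm.2⟩
        · left; exact ⟨by omega, hm.2⟩
      have h3 := le_trans (Finset.card_le_card hsub) (Finset.card_union_le _ _)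
      have h4 : (((VF F (N + (e + 1) + 1)).filter (fun m => Ex k s c₀ m)).card : ℝ)
          ≤ (((VF F (N + e + 1)).filter (fun m => Ex k s c₀ m)).card : ℝ)
            + (((VF F (N + (e + 1) + 1)).filter (fun m => m.natDegree = N + (e + 1)
              ∧ Ex k s c₀ m)).card : ℝ) := by exact_mod_cast h3
      have h5 := hN (N + (e + 1)) (by omega)
      have h6 : ε * q ^ (N + e) ≤ ε / 2 * q ^ (N + (e + 1)) := by
        rw [← add_assoc, pow_succ]
        have : 0 < q ^ (N + e) := by positivity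
        nlinarith [mul_pos hε this]
      linarith
  obtain ⟨M, hM⟩ := pow_unbounded_of_one_lt (2 * q ^ (N + 1) / ε) (show (1 : ℝ) < q by linarith)
  refine ⟨c₀, hc₀, N + M, fun n hn => ?_⟩
  obtain ⟨e, rfl⟩ : ∃ e, n = N + e := ⟨n - N, by omega⟩
  refine le_trans (h1 e) ?_
  rw [div_lt_iff₀ hε] at hM
  have h7 : q ^ M ≤ q ^ (N + e + 1) := pow_le_pow_right₀ (by linarith) (by omega)
  have h8 : q ^ M * ε ≤ q ^ (N + e + 1) * ε := mul_le_mul_of_nonneg_right h7 hε.le
  have h9 : ε * q ^ (N + e) ≤ ε / 2 * q ^ (N + e + 1) := by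
    rw [pow_succ]
    have : 0 < q ^ (N + e) := by positivity
    nlinarith [mul_pos hε this]
  linarith

end Pool.Agent.H598.AA
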