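import Pool.Agent.H598.AA.Fin

/-!
# Few sums of `k - 1` powers; the asymptotic formula for almost all polynomials
-/

namespace Pool.Agent.H598.AA

open Finset Polynomial Pool.Agent.H598.FQ Pool.Agent.H598.AS
open Pool.Agent.H598.DG (eight_le)
open Pool.Agent.H598.TK (top_coeff)
open scoped Classical

variable {F : Type*} [Field F] [Fintype F]

/-- Sums of `k - 1` powers are rare. -/
lemma card_few {k : ℕ} (hk : 2 ≤ k) {ε : ℝ} (hε : 0 < ε) :
    ∃ N : ℕ, ∀ n, N ≤ n →
      (((VF F (n + 1)).filter (fun m => ∃ x : Fin (k - 1) → F[X],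
        (∀ i, k * (x i).natDegree < m.natDegree + k) ∧ ∑ i, x i ^ k = m)).card : ℝ)
        ≤ ε * (Fintype.card F : ℝ) ^ (n + 1) := by
  have hq2 : (2 : ℝ) ≤ Fintype.card F := by exact_mod_cast Fintype.one_lt_card
  obtain ⟨T, hT⟩ := pow_unbounded_of_one_lt (1 / ε)
    (show (1 : ℝ) < (Fintype.card F : ℝ) by linarith)
  refine ⟨(k - 1) * (2 * k) + k * T, fun n hn => ?_⟩
  set P := (n + k - 1) / k with hP
  have hPk : k * P ≤ n + k - 1 := Nat.mul_div_le _ _
  have h1 : ((VF F (n + 1)).filter (fun m => ∃ x : Fin (k - 1) → F[X],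
        (∀ i, k * (x i).natDegree < m.natDegree + k) ∧ ∑ i, x i ^ k = m)).card
      ≤ (Fintype.card F ^ (P + 1)) ^ (k - 1) := by
    have h2 : (Fintype.card F ^ (P + 1)) ^ (k - 1) = (TF F (k - 1) (P + 1)).card := by
      unfold TF
      rw [Fintype.card_piFinset, Finset.prod_const, Finset.card_univ, Fintype.card_fin, card_VF]
    rw [h2]
    refine le_trans (Finset.card_le_card (t := (TF F (k - 1) (P + 1)).image
      (fun x => ∑ i, x i ^ k)) ?_) Finset.card_image_le
    intro m hm
    rw [Finset.mem_filter, mem_VF, mem_V_succ_iff] at hm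
    obtain ⟨hm1, x, hx, hs⟩ := hm
    rw [Finset.mem_image]
    refine ⟨x, ?_, hs⟩
    rw [mem_TF]
    intro i
    rw [mem_V_succ_iff, hP, Nat.le_div_iff_mul_le (by omega)]
    have h3 := hx i
    rw [mul_comm]
    omega
  have h4 : (P + 1) * (k - 1) + T ≤ n + 1 := by
    obtain ⟨k', rfl⟩ : ∃ k', k = k' + 1 := ⟨k - 1, by omega⟩
    simp only [Nat.add_sub_cancel] at *
    have h5 : (k' + 1) * ((P + 1) * k' + T) ≤ (k' + 1) * (n + 1) := by
      have h6 : (k' + 1) * ((P + 1) * k' + T)
          = ((k' + 1) * P) * k' + (k' + 1) * k' + (k' + 1) * T := by ring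
      have h7 : ((k' + 1) * P) * k' ≤ (n + k') * k' := Nat.mul_le_mul_right _ (by omega)
      have h8 : (k' + 1) * (n + 1) = n * k' + n + k' + 1 := by ring
      have h9 : (n + k') * k' = n * k' + k' * k' := by ring
      have h10 : k' * (2 * (k' + 1)) = 2 * (k' * k') + 2 * k' := by ring
      have h11 : (k' + 1) * k' = k' * k' + k' := by ring
      rw [h10] at hn
      rw [h6, h8, h11]
      omega
    exact le_of_mul_le_mul_left h5 (by omega)
  have h5 : (((VF F (n + 1)).filter (fun m => ∃ x : Fin (k - 1) → F[X],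
        (∀ i, k * (x i).natDegree < m.natDegree + k) ∧ ∑ i, x i ^ k = m)).card : ℝ)
      ≤ (Fintype.card F : ℝ) ^ ((P + 1) * (k - 1)) := by
    rw [pow_mul]
    exact_mod_cast h1
  refine le_trans h5 ?_
  have h6 : (Fintype.card F : ℝ) ^ ((P + 1) * (k - 1)) * (Fintype.card F : ℝ) ^ T
      ≤ (Fintype.card F : ℝ) ^ (n + 1) := by
    rw [← pow_add]
    exact pow_le_pow_right₀ (by linarith) h4
  rw [div_lt_iff₀ hε] at hT
  have h7 : (0 : ℝ) < (Fintype.card F : ℝ) ^ ((P + 1) * (k - 1)) := by positivity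
  calc (Fintype.card F : ℝ) ^ ((P + 1) * (k - 1))
      ≤ (Fintype.card F : ℝ) ^ ((P + 1) * (k - 1)) * ((Fintype.card F : ℝ) ^ T * ε) := by
        nlinarith
    _ = ε * ((Fintype.card F : ℝ) ^ ((P + 1) * (k - 1)) * (Fintype.card F : ℝ) ^ T) := by ring
    _ ≤ _ := mul_le_mul_of_nonneg_left h6 hε.le

/-- **The asymptotic formula for almost all polynomials.** -/
theorem almost_asymp {ψ : AddChar F ℂ} (hψ : ψ ≠ 1) {k : ℕ} (hk : 2 ≤ k)
    (hch : ∀ i : ℕ, 1 ≤ i → i ≤ k → ((i : ℕ) : F) ≠ 0) (hbig : Big (Fintype.card F) k)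
    {s : ℕ} (hs : k + 1 ≤ s) {ε : ℝ} (hε : 0 < ε) :
    ∃ H : F[X], H.Monic ∧ ∀ G : F[X], G.Monic → H ∣ G → ∃ P₀ : ℕ, ∀ P, P₀ ≤ P →
      (((VF F (k * P + 1)).filter (fun m =>
        ε < |(Nat.card {x : Fin s → F[X] // (∀ i, (x i).natDegree ≤ P) ∧
            (∃ i, (x i).natDegree = P) ∧ ∑ i, x i ^ k = m} : ℝ)
          / (Fintype.card F : ℝ) ^ ((s - k) * P)
          - (Nat.card {c : Fin s → F // (∃ i, c i ≠ 0) ∧ ∑ i, c i ^ k = m.coeff (k * P)} : ℝ)
            * ((Nat.card {z : Fin s → F[X] // (∀ i, (z i).degree < G.degree) ∧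
              G ∣ ∑ i, z i ^ k - m} : ℝ) / (Fintype.card F : ℝ) ^ ((s - 1) * G.natDegree))|)).card
          : ℝ) ≤ ε * (Fintype.card F : ℝ) ^ (k * P) := by
  have hq1 : (1 : ℝ) ≤ Fintype.card F := by exact_mod_cast Fintype.card_pos
  obtain ⟨q, hq⟩ : ∃ q : ℝ, q = (Fintype.card F : ℝ) := ⟨_, rfl⟩
  rw [← hq] at hq1 ⊢
  have hq0 : (0 : ℝ) < q := by linarith
  obtain ⟨a, ha'⟩ : ∃ a : Fin s → F[X], a = fun _ => 1 := ⟨_, rfl⟩
  have ha : ∀ i, a i ≠ 0 := fun i => by rw [ha']; exact one_ne_zero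
  obtain ⟨H, hH, hvar⟩ := variance hψ hk hch hbig hs a ha
    (show (0 : ℝ) < ε * (ε / q ^ s) ^ 2 / (q * q ^ s) by positivity)
  refine ⟨H, hH, fun G hG hHG => ?_⟩
  obtain ⟨W₀, hW₀⟩ := hvar G hG hHG
  refine ⟨W₀ + 1, fun P hP => ?_⟩
  have hkP : P ≤ k * P := Nat.le_mul_of_pos_left _ (by omega)
  rw [← hq] at hW₀
  have hdP : ∀ i, dP k (k * P) (a i) = P := by
    intro i
    rw [ha']
    exact dP_one (by omega) P
  have hvv : ∀ c : Fin s → F, vv k a (k * P) c = ∑ i, c i ^ k := by
    intro c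
    unfold vv
    rw [ha']
    simp
  have hprod : ∏ i : Fin s, q ^ (dP k (k * P) (a i)) = q ^ ((s - k) * P) * q ^ (k * P) := by
    rw [Finset.prod_congr rfl (fun i _ => by rw [hdP i]), Finset.prod_const,
      Finset.card_univ, Fintype.card_fin, ← pow_mul, ← pow_add]
    congr 1
    obtain ⟨r, hr⟩ : ∃ r, s = r + k := ⟨s - k, by omega⟩
    rw [hr, Nat.add_sub_cancel]; ring
  have hGG : ∀ m : F[X], ((Nat.card {z : Fin s → F[X] // (∀ i, (z i).degree < G.degree) ∧
              G ∣ ∑ i, z i ^ k - m} : ℝ) / q ^ ((s - 1) * G.natDegree)) = dn k a m G := by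
    intro m
    have h4 := NG_eq (k := k) (fun _ : Fin s => (1 : F[X])) m hG
    simp only [one_mul] at h4
    rw [h4, ha']
    unfold dn
    rw [← hq]
    have e2 : (q ^ G.natDegree) ^ s = q ^ ((s - 1) * G.natDegree) * q ^ G.natDegree := by
      rw [← pow_mul, ← pow_add]
      congr 1
      obtain ⟨t, rfl⟩ : ∃ t, s = t + 1 := ⟨s - 1, by omega⟩
      rw [Nat.add_sub_cancel]; ring
    rw [e2, mul_div_mul_right _ _ (by positivity)]
  -- the counting functions
  have hcount : ∀ m ∈ VF F (k * P + 1),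
      (Nat.card {x : Fin s → F[X] // (∀ i, (x i).natDegree ≤ P) ∧
            (∃ i, (x i).natDegree = P) ∧ ∑ i, x i ^ k = m} : ℝ) / q ^ ((s - k) * P)
        = ∑ c ∈ Lc k a (k * P) (m.coeff (k * P)), rr k a m (k * P) c := by
    intro m _
    rw [count_one (by omega) (by omega) m, card_Sol (fun i => by rw [natDegree_one]; omega)]
    push_cast
    rw [Finset.sum_div, ha']
    apply Finset.sum_congr rfl
    intro c _
    unfold rr
    rw [← hq]
    rw [ha'] at hprod
    rw [hprod, mul_div_mul_right _ _ (by positivity)]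
  refine le_trans (b := (((VF F (k * P + 1)).filter (fun m =>
    ε < |∑ c ∈ Lc k a (k * P) (m.coeff (k * P)), (rr k a m (k * P) c - dn k a m G)|)).card : ℝ))
    ?_ ?_
  · have h1 : (VF F (k * P + 1)).filter (fun m =>
        ε < |(Nat.card {x : Fin s → F[X] // (∀ i, (x i).natDegree ≤ P) ∧
            (∃ i, (x i).natDegree = P) ∧ ∑ i, x i ^ k = m} : ℝ)
          / q ^ ((s - k) * P)
          - (Nat.card {c : Fin s → F // (∃ i, c i ≠ 0) ∧ ∑ i, c i ^ k = m.coeff (k * P)} : ℝ)
            * ((Nat.card {z : Fin s → F[X] // (∀ i, (z i).degree < G.degree) ∧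
              G ∣ ∑ i, z i ^ k - m} : ℝ) / q ^ ((s - 1) * G.natDegree))|)
        = (VF F (k * P + 1)).filter (fun m =>
    ε < |∑ c ∈ Lc k a (k * P) (m.coeff (k * P)), (rr k a m (k * P) c - dn k a m G)|) := by
      apply Finset.filter_congr
      intro m hm
      rw [hGG, hcount m hm, kappa_one P (m.coeff (k * P)), Finset.sum_sub_distrib,
        Finset.sum_const, nsmul_eq_mul, ha']
    rw [h1]
  · have h2 := card_split (k * P) (fun m : F[X] =>
      ε < |∑ c ∈ Lc k a (k * P) (m.coeff (k * P)), (rr k a m (k * P) c - dn k a m G)|)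
    have h3 : ∀ v : F, ((Finset.univ.filter (fun m : degreeLT F (k * P) =>
        ε < |∑ c ∈ Lc k a (k * P) ((C v * X ^ (k * P) + (m : F[X])).coeff (k * P)),
          (rr k a (C v * X ^ (k * P) + (m : F[X])) (k * P) c
            - dn k a (C v * X ^ (k * P) + (m : F[X])) G)|)).card : ℝ)
        ≤ ε / q * q ^ (k * P) := by
      intro v
      have hLc : ((Lc k a (k * P) v).card : ℝ) ≤ q ^ s := by
        have h3 : (Lc k a (k * P) v).card ≤ Fintype.card F ^ s := by
          refine le_trans (Finset.card_le_univ _) ?_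
          rw [Fintype.card_fun, Fintype.card_fin]
        rw [hq]
        exact_mod_cast h3
      have hsub : Finset.univ.filter (fun m : degreeLT F (k * P) =>
          ε < |∑ c ∈ Lc k a (k * P) ((C v * X ^ (k * P) + (m : F[X])).coeff (k * P)),
            (rr k a (C v * X ^ (k * P) + (m : F[X])) (k * P) c
              - dn k a (C v * X ^ (k * P) + (m : F[X])) G)|)
          ⊆ (Lc k a (k * P) v).biUnion (fun c => Finset.univ.filter
            (fun m : degreeLT F (k * P) => (ε / q ^ s) ^ 2 ≤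
              (rr k a (C v * X ^ (k * P) + (m : F[X])) (k * P) c
              - dn k a (C v * X ^ (k * P) + (m : F[X])) G) ^ 2)) := by
        intro m hm
        rw [Finset.mem_filter] at hm
        have hco : (C v * X ^ (k * P) + (m : F[X])).coeff (k * P) = v := by
          rw [coeff_add, coeff_C_mul_X_pow, if_pos rfl, mem_V_iff.1 m.2 _ le_rfl, add_zero]
        rw [hco] at hm
        rw [Finset.mem_biUnion]
        by_contra hcon
        push Not at hcon
        have h4 : ∀ c ∈ Lc k a (k * P) v, |rr k a (C v * X ^ (k * P) + (m : F[X])) (k * P) c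
              - dn k a (C v * X ^ (k * P) + (m : F[X])) G| ≤ ε / q ^ s := by
          intro c hc
          have h5 := hcon c hc
          rw [Finset.mem_filter] at h5
          push Not at h5
          have h6 := h5 (Finset.mem_univ _)
          rw [← sq_abs] at h6
          exact (lt_of_pow_lt_pow_left₀ 2 (by positivity) h6).le
        have h7 := Finset.abs_sum_le_sum_abs (fun c => rr k a (C v * X ^ (k * P) + (m : F[X]))
          (k * P) c - dn k a (C v * X ^ (k * P) + (m : F[X])) G) (Lc k a (k * P) v)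
        have h8 := Finset.sum_le_sum h4
        rw [Finset.sum_const, nsmul_eq_mul] at h8
        have h9 : ((Lc k a (k * P) v).card : ℝ) * (ε / q ^ s) ≤ q ^ s * (ε / q ^ s) :=
          mul_le_mul_of_nonneg_right hLc (by positivity)
        have h10 : q ^ s * (ε / q ^ s) = ε := by field_simp
        linarith [hm.2]
      have h4 : ∀ c ∈ Lc k a (k * P) v, ((Finset.univ.filter
            (fun m : degreeLT F (k * P) => (ε / q ^ s) ^ 2 ≤
              (rr k a (C v * X ^ (k * P) + (m : F[X])) (k * P) c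
              - dn k a (C v * X ^ (k * P) + (m : F[X])) G) ^ 2)).card : ℝ)
            ≤ ε / (q * q ^ s) * q ^ (k * P) := by
        intro c hc
        rw [Lc, Finset.mem_filter] at hc
        have h5 := hW₀ (k * P) (by omega) c hc.2.1
        have h6 : vv k a (k * P) c = v := hc.2.2
        rw [h6] at h5
        have h7 := cheb _ (fun _ => sq_nonneg _) h5
          (Finset.univ.filter (fun m : degreeLT F (k * P) => (ε / q ^ s) ^ 2 ≤
              (rr k a (C v * X ^ (k * P) + (m : F[X])) (k * P) c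
              - dn k a (C v * X ^ (k * P) + (m : F[X])) G) ^ 2))
          (t := (ε / q ^ s) ^ 2) (fun m hm => (Finset.mem_filter.1 hm).2)
        have h8 : (0 : ℝ) < (ε / q ^ s) ^ 2 := by positivity
        have h9 : ε * (ε / q ^ s) ^ 2 / (q * q ^ s) * q ^ (k * P)
            = ε / (q * q ^ s) * q ^ (k * P) * (ε / q ^ s) ^ 2 := by ring
        rw [h9] at h7
        exact le_of_mul_le_mul_right h7 h8
      have h5 := le_trans (Finset.card_le_card hsub) Finset.card_biUnion_le
      have h6 : ((Finset.univ.filter (fun m : degreeLT F (k * P) =>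
          ε < |∑ c ∈ Lc k a (k * P) ((C v * X ^ (k * P) + (m : F[X])).coeff (k * P)),
            (rr k a (C v * X ^ (k * P) + (m : F[X])) (k * P) c
              - dn k a (C v * X ^ (k * P) + (m : F[X])) G)|)).card : ℝ)
          ≤ ∑ _c ∈ Lc k a (k * P) v, ε / (q * q ^ s) * q ^ (k * P) := by
        refine le_trans ?_ (Finset.sum_le_sum h4)
        exact_mod_cast h5
      refine le_trans h6 ?_
      rw [Finset.sum_const, nsmul_eq_mul]
      calc ((Lc k a (k * P) v).card : ℝ) * (ε / (q * q ^ s) * q ^ (k * P))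
          ≤ q ^ s * (ε / (q * q ^ s) * q ^ (k * P)) :=
            mul_le_mul_of_nonneg_right hLc (by positivity)
        _ = _ := by field_simp
    have h4 : (((VF F (k * P + 1)).filter (fun m : F[X] =>
      ε < |∑ c ∈ Lc k a (k * P) (m.coeff (k * P)), (rr k a m (k * P) c - dn k a m G)|)).card : ℝ)
        ≤ ∑ _v : F, ε / q * q ^ (k * P) := by
      refine le_trans ?_ (Finset.sum_le_sum (fun v _ => h3 v))
      exact_mod_cast h2
    refine le_trans h4 (le_of_eq ?_)
    rw [Finset.sum_const, Finset.card_univ, nsmul_eq_mul, ← hq]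
    field_simp

end Pool.Agent.H598.AA
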