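import Pool.Agent.H598.AA.Fib
import Pool.Agent.H598.AS.Total

/-!
# Moments of the local densities and of the numbers of solutions
-/

namespace Pool.Agent.H598.AA

open Finset Polynomial Pool.Agent.H598.FQ Pool.Agent.H598.AS
open Pool.Agent.H598.DG (dvd_sub_mod mod_eq_of_dvd)
open scoped Classical

variable {F : Type*} [Field F]

/-- The doubled coefficients. -/
noncomputable def dbl {s : ℕ} (a : Fin s → F[X]) : Fin (s + s) → F[X] :=
  Fin.append a (fun i => -a i)

lemma dbl_left {s : ℕ} (a : Fin s → F[X]) (i : Fin s) : dbl a (Fin.castAdd s i) = a i := by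
  unfold dbl
  rw [Fin.append_left]

lemma dbl_right {s : ℕ} (a : Fin s → F[X]) (i : Fin s) : dbl a (Fin.natAdd s i) = -a i := by
  unfold dbl
  rw [Fin.append_right]

lemma dbl_ne {s : ℕ} {a : Fin s → F[X]} (ha : ∀ i, a i ≠ 0) (i : Fin (s + s)) : dbl a i ≠ 0 := by
  refine Fin.addCases (fun i => ?_) (fun i => ?_) i
  · rw [dbl_left]; exact ha i
  · rw [dbl_right]; exact neg_ne_zero.2 (ha i)

lemma dP_neg (k W : ℕ) (a : F[X]) : dP k W (-a) = dP k W a := by
  unfold dP
  rw [natDegree_neg]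

section
variable [Fintype F]

lemma NG_congr (k : ℕ) {s : ℕ} (a : Fin s → F[X]) {G m m' : F[X]} (h : G ∣ m - m') :
    NG k a m G = NG k a m' G := by
  unfold NG
  congr 1
  apply Finset.filter_congr
  intro z _
  have e : ∑ i, a i * (z i : F[X]) ^ k - m' = (∑ i, a i * (z i : F[X]) ^ k - m) + (m - m') := by
    ring
  rw [e]
  exact (dvd_add_left h).symm

lemma dn_congr (k : ℕ) {s : ℕ} (a : Fin s → F[X]) {G m m' : F[X]} (h : G ∣ m - m') :
    dn k a m G = dn k a m' G := by
  unfold dn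
  rw [NG_congr k a h]

/-- Doubling for congruences. -/
lemma NG_dbl (k : ℕ) {s : ℕ} (a : Fin s → F[X]) (G : F[X]) :
    NG k (dbl a) 0 G = ∑ z : Fin s → degreeLT F G.natDegree,
      NG k a (∑ i, a i * (z i : F[X]) ^ k) G := by
  unfold NG
  rw [Finset.card_filter, ← (Fin.appendEquiv s s).sum_comp, Fintype.sum_prod_type]
  apply Finset.sum_congr rfl
  intro z _
  rw [Finset.card_filter]
  apply Finset.sum_congr rfl
  intro z' _
  have e : ∑ i, dbl a i * ((Fin.appendEquiv s s (z, z')) i : F[X]) ^ k - 0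
      = -(∑ i, a i * (z' i : F[X]) ^ k - ∑ i, a i * (z i : F[X]) ^ k) := by
    rw [Fin.sum_univ_add]
    have e1 : ∀ i : Fin s, (Fin.appendEquiv s s (z, z')) (Fin.castAdd s i) = z i := by
      intro i
      exact Fin.append_left z z' i
    have e2 : ∀ i : Fin s, (Fin.appendEquiv s s (z, z')) (Fin.natAdd s i) = z' i := by
      intro i
      exact Fin.append_right z z' i
    simp only [e1, e2, dbl_left, dbl_right, neg_mul, Finset.sum_neg_distrib]
    ring
  rw [e, dvd_neg]

/-- Sums over residues weighted with the number of solutions. -/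
lemma sum_NG {k : ℕ} {s : ℕ} (a : Fin s → F[X]) {G : F[X]} (hG : G.Monic)
    (h : F[X] → ℝ) (hh : ∀ y y', G ∣ y - y' → h y = h y') :
    ∑ μ : degreeLT F G.natDegree, (NG k a μ G : ℝ) * h μ
      = ∑ z : Fin s → degreeLT F G.natDegree, h (∑ i, a i * (z i : F[X]) ^ k) := by
  rw [← Finset.sum_fiberwise Finset.univ (fun z : Fin s → degreeLT F G.natDegree =>
    rs hG (∑ i, a i * (z i : F[X]) ^ k))]
  apply Finset.sum_congr rfl
  intro μ _
  have h1 : ∀ z ∈ Finset.univ.filter (fun z : Fin s → degreeLT F G.natDegree =>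
      rs hG (∑ i, a i * (z i : F[X]) ^ k) = μ), h (∑ i, a i * (z i : F[X]) ^ k) = h μ := by
    intro z hz
    exact hh _ _ ((rs_eq_iff hG _ _).1 (Finset.mem_filter.1 hz).2)
  rw [Finset.sum_congr rfl h1, Finset.sum_const, nsmul_eq_mul]
  congr 2
  unfold NG
  congr 1
  apply Finset.filter_congr
  intro z _
  exact (rs_eq_iff hG _ _).symm

variable {k : ℕ} {s : ℕ} (a : Fin s → F[X]) {G : F[X]} (hG : G.Monic)

include hG in
/-- The mean of the density. -/
lemma dn_mean (b : F[X]) {W : ℕ} (hW : G.natDegree ≤ W) :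
    ∑ m : degreeLT F W, dn k a (b + m) G = (Fintype.card F : ℝ) ^ W := by
  obtain ⟨e, he⟩ : ∃ e, W = G.natDegree + e := ⟨W - G.natDegree, by omega⟩
  rw [sum_one hG b he (fun m => dn k a m G) (fun y y' h => dn_congr k a h)]
  have h1 := sum_NG (k := k) a hG (fun _ => (1 : ℝ)) (fun _ _ _ => rfl)
  simp only [mul_one] at h1
  rw [Finset.sum_const, Finset.card_univ, Fintype.card_fun, card_V, Fintype.card_fin,
    nsmul_eq_mul, mul_one] at h1
  unfold dn
  rw [← Finset.sum_div, ← Finset.sum_mul, h1]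
  have hq0 : (Fintype.card F : ℝ) ≠ 0 := by exact_mod_cast Fintype.card_ne_zero
  push_cast
  rw [he, pow_add]
  field_simp

include hG in
/-- The second moment of the density. -/
lemma dn_sq (b : F[X]) {W : ℕ} (hW : G.natDegree ≤ W) :
    ∑ m : degreeLT F W, dn k a (b + m) G ^ 2
      = (Fintype.card F : ℝ) ^ W * dn k (dbl a) 0 G := by
  obtain ⟨e, he⟩ : ∃ e, W = G.natDegree + e := ⟨W - G.natDegree, by omega⟩
  rw [sum_one hG b he (fun m => dn k a m G ^ 2) (fun y y' h => by
    rw [dn_congr k a h])]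
  have h1 := sum_NG (k := k) a hG (fun m => (NG k a m G : ℝ)) (fun y y' h => by
    rw [NG_congr k a h])
  have h2 : (NG k (dbl a) 0 G : ℝ) = ∑ z : Fin s → degreeLT F G.natDegree,
      (NG k a (∑ i, a i * (z i : F[X]) ^ k) G : ℝ) := by
    rw [NG_dbl]; push_cast; rfl
  rw [← h2] at h1
  unfold dn
  rw [← h1]
  have hq0 : (Fintype.card F : ℝ) ≠ 0 := by exact_mod_cast Fintype.card_ne_zero
  rw [Finset.mul_sum, Finset.sum_mul, Finset.sum_div, Finset.mul_sum]
  apply Finset.sum_congr rfl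
  intro μ _
  rw [he, pow_add, pow_add]
  field_simp

include hG in
/-- The mean of the density over the values of the form. -/
lemma dn_cross (b : Fin s → F[X]) {P : Fin s → ℕ} (hP : ∀ i, G.natDegree ≤ P i) :
    ∑ y : (∀ i, degreeLT F (P i)), dn k a (∑ i, a i * (b i + (y i : F[X])) ^ k) G
      = (∏ i, (Fintype.card F : ℝ) ^ P i) * dn k (dbl a) 0 G := by
  have hPe : ∀ i, P i = G.natDegree + (P i - G.natDegree) := fun i => by
    have := hP i
    omega
  rw [sum_pi hG b hPe (fun x => dn k a (∑ i, a i * x i ^ k) G) (fun x x' h =>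
    dn_congr k a (form_congr a h))]
  have h2 : (NG k (dbl a) 0 G : ℝ) = ∑ z : Fin s → degreeLT F G.natDegree,
      (NG k a (∑ i, a i * (z i : F[X]) ^ k) G : ℝ) := by
    rw [NG_dbl]; push_cast; rfl
  have h3 : ∏ i, (Fintype.card F : ℝ) ^ P i = ((Fintype.card F : ℝ) ^ G.natDegree) ^ s
      * ∏ i, (Fintype.card F : ℝ) ^ (P i - G.natDegree) := by
    have h4 : ((Fintype.card F : ℝ) ^ G.natDegree) ^ s
        = ∏ _i : Fin s, (Fintype.card F : ℝ) ^ G.natDegree := by
      rw [Finset.prod_const, Finset.card_univ, Fintype.card_fin]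
    rw [h4, ← Finset.prod_mul_distrib]
    apply Finset.prod_congr rfl
    intro i _
    rw [← pow_add, ← hPe i]
  rw [h3]
  unfold dn
  rw [← Finset.sum_div, ← Finset.sum_mul, ← h2]
  have hq0 : (Fintype.card F : ℝ) ≠ 0 := by exact_mod_cast Fintype.card_ne_zero
  rw [pow_add ((Fintype.card F : ℝ) ^ G.natDegree) s s]
  field_simp

end

end Pool.Agent.H598.AA
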