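import Pool.Agent.H598.AA.Cnt

/-!
# The variance is small
-/

namespace Pool.Agent.H598.AA

open Finset Polynomial Pool.Agent.H598.FQ Pool.Agent.H598.AS
open scoped Classical

variable {F : Type*} [Field F]

lemma vv_dbl (k W : ℕ) {s : ℕ} (a : Fin s → F[X]) (c : Fin s → F) :
    ∑ i, (if (dbl a i).natDegree % k = W % k then (dbl a i).leadingCoeff
      * (Fin.append c c) i ^ k else 0) = 0 := by
  rw [Fin.sum_univ_add]
  simp only [dbl_left, dbl_right, Fin.append_left, Fin.append_right, natDegree_neg,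
    leadingCoeff_neg]
  rw [← Finset.sum_add_distrib]
  apply Finset.sum_eq_zero
  intro i _
  split_ifs
  · ring
  · ring

variable [Fintype F]

/-- The asymptotic formula, for any number of variables. -/
theorem asymp_gen {ψ : AddChar F ℂ} (hψ : ψ ≠ 1) {k : ℕ} (hk : 2 ≤ k)
    (hch : ∀ i : ℕ, 1 ≤ i → i ≤ k → ((i : ℕ) : F) ≠ 0) (hbig : Big (Fintype.card F) k)
    {s : ℕ} (hs : 2 * k + 1 ≤ s) (a : Fin s → F[X]) (ha : ∀ i, a i ≠ 0) {ε : ℝ} (hε : 0 < ε) :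
    ∃ W₀ : ℕ, ∀ W, W₀ ≤ W → ∀ m ∈ degreeLT F (W + 1), ∀ c : Fin s → F,
      (∃ i, c i ≠ 0 ∧ (a i).natDegree % k = W % k) →
      ∑ i, (if (a i).natDegree % k = W % k then (a i).leadingCoeff * c i ^ k else 0)
        = m.coeff W → |rr k a m W c - Sr ψ k a m| ≤ ε := by
  obtain ⟨t, rfl⟩ : ∃ t, s = t + 1 := ⟨s - 1, by omega⟩
  exact asymp hψ hk hch hbig (by omega) a ha hε

/-- **The variance is small.** -/
theorem variance {ψ : AddChar F ℂ} (hψ : ψ ≠ 1) {k : ℕ} (hk : 2 ≤ k)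
    (hch : ∀ i : ℕ, 1 ≤ i → i ≤ k → ((i : ℕ) : F) ≠ 0) (hbig : Big (Fintype.card F) k)
    {s : ℕ} (hs : k + 1 ≤ s) (a : Fin s → F[X]) (ha : ∀ i, a i ≠ 0) {ε : ℝ} (hε : 0 < ε) :
    ∃ H : F[X], H.Monic ∧ ∀ G : F[X], G.Monic → H ∣ G → ∃ W₀ : ℕ, ∀ W, W₀ ≤ W →
      ∀ c : Fin s → F, (∃ i, c i ≠ 0 ∧ (a i).natDegree % k = W % k) →
      ∑ m : degreeLT F W, (rr k a (C (vv k a W c) * X ^ W + (m : F[X])) W c
        - dn k a (C (vv k a W c) * X ^ W + (m : F[X])) G) ^ 2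
        ≤ ε * (Fintype.card F : ℝ) ^ W := by
  obtain ⟨D, hD⟩ := exists_D (C := Ca F (dbl a)) (show (0 : ℝ) < ε / 4 by positivity)
  obtain ⟨H, hH, hHd⟩ := exists_modulus F D
  refine ⟨H, hH, fun G hG hHG => ?_⟩
  obtain ⟨W₁, hW₁⟩ := asymp_gen hψ hk hch hbig (s := s + s) (by omega) (dbl a) (dbl_ne ha)
    (show (0 : ℝ) < ε / 2 by positivity)
  refine ⟨W₁ + k * G.natDegree + G.natDegree + ∑ i, (a i).natDegree, fun W hW c hc => ?_⟩
  have hdi : ∀ i, (a i).natDegree ≤ ∑ i, (a i).natDegree := fun i =>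
    Finset.single_le_sum (f := fun i => (a i).natDegree) (fun _ _ => Nat.zero_le _)
      (Finset.mem_univ i)
  have hGP : ∀ i, G.natDegree ≤ dP k W (a i) := by
    intro i
    unfold dP
    rw [Nat.le_div_iff_mul_le (by omega), mul_comm]
    have := hdi i
    omega
  rw [variance_eq (fun i => by have := hdi i; omega) c hG hGP (by omega), mul_comm]
  apply mul_le_mul_of_nonneg_right _ (by positivity)
  have h1 := hW₁ W (by omega) 0 (Submodule.zero_mem _) (Fin.append c c) (by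
    obtain ⟨i, hi, hi2⟩ := hc
    refine ⟨Fin.castAdd s i, ?_, ?_⟩
    · rw [Fin.append_left]; exact hi
    · rw [dbl_left]; exact hi2) (by
    rw [coeff_zero]
    exact vv_dbl k W a c)
  have h2 := dn_close hψ hk hch hbig (show 2 * k + 1 ≤ s + s by omega) (dbl_ne ha) 0
    (D := D) hG (fun g hg hgD => dvd_trans (hHd g hg hgD) hHG)
  have h3 := abs_le.1 h1
  have h4 := abs_le.1 (le_trans h2 (mul_le_mul_of_nonneg_left hD (by norm_num)))
  have h5 : rr k (dbl a) 0 W (Fin.append c c) - Sr ψ k (dbl a) 0 ≤ ε / 2 := h3.2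
  have h6 : -(2 * (ε / 4)) ≤ dn k (dbl a) 0 G - Sr ψ k (dbl a) 0 := h4.1
  linarith

end Pool.Agent.H598.AA
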